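import Pool.Agent.Lib.MP_f64c7e_nt.Entropy

/-!
Windows of a cyclic sequence `g : ZMod w → ℕ` and their independence, at some scale, from the
position modulo `M`.
-/

set_option autoImplicit false

open Finset
open scoped Classical

namespace Pool.Agent.Lib.MP_f64c7e_nt

noncomputable section

variable {w : ℕ} [NeZero w]

/-- The window of length `n` starting at `j`. -/
def win (g : ZMod w → ℕ) (n : ℕ) (j : ZMod w) : Fin n → ℕ := fun i => g (j + ((i : ℕ) : ZMod w))

/-- The position modulo `M`. -/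
def pos (M : ℕ) (h : M ∣ w) (j : ZMod w) : ZMod M := ZMod.castHom h (ZMod M) j

omit [NeZero w] in
theorem pos_add_nat (M : ℕ) (h : M ∣ w) (j : ZMod w) (n : ℕ) :
    pos M h (j + (n : ZMod w)) = pos M h j + (n : ZMod M) := by
  unfold pos
  rw [map_add, map_natCast]

theorem Lam_win_shift (g : ZMod w → ℕ) (M : ℕ) (h : M ∣ w) (n l : ℕ) :
    Lam (fun j => (win g l (j + (n : ZMod w)), pos M h j)) =
      Lam (fun j => (win g l j, pos M h j)) := by
  have h1 := Lam_comp_equiv (fun j => (win g l j, pos M h j)) (Equiv.addRight (n : ZMod w))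
  rw [← h1]
  have hinj : Function.Injective
      (fun p : (Fin l → ℕ) × ZMod M => (p.1, p.2 + (n : ZMod M))) := by
    rintro ⟨a, b⟩ ⟨c, d⟩ hab
    simp only [Prod.mk.injEq, add_left_inj] at hab
    rw [hab.1, hab.2]
  have h2 := Lam_comp_inj (fun j => (win g l (j + (n : ZMod w)), pos M h j)) _ hinj
  rw [← h2]
  congr 1
  funext j
  simp [pos_add_nat]

theorem Lam_win_add (g : ZMod w → ℕ) (M : ℕ) (h : M ∣ w) (n l : ℕ) :
    Lam (fun j => (win g n j, pos M h j)) + Lam (fun j => (win g l j, pos M h j)) ≤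
      Lam (fun j => (win g (n + l) j, pos M h j)) + Lam (pos (w := w) M h) := by
  have h1 := Lam_submodular (fun j => win g n j) (fun j => win g l (j + (n : ZMod w)))
    (fun j => pos M h j)
  rw [Lam_win_shift] at h1
  have hinj : Function.Injective
      (fun p : (Fin (n + l) → ℕ) × ZMod M =>
        ((fun i => p.1 (Fin.castAdd l i)), (fun i => p.1 (Fin.natAdd n i)), p.2)) := by
    rintro ⟨a, b⟩ ⟨c, d⟩ hab
    simp only [Prod.mk.injEq] at hab
    obtain ⟨h1, h2, h3⟩ := hab
    refine Prod.ext ?_ h3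
    funext i
    refine Fin.addCases (fun i => congrFun h1 i) (fun i => congrFun h2 i) i
  have h2 := Lam_comp_inj (fun j => (win g (n + l) j, pos M h j)) _ hinj
  rw [← h2]
  refine le_trans h1 (le_of_eq ?_)
  congr 2
  funext j
  simp only [Prod.mk.injEq, and_true]
  refine ⟨rfl, ?_⟩
  funext i
  simp [win, add_assoc]

theorem Lam_win_mul (g : ZMod w → ℕ) (M : ℕ) (h : M ∣ w) (l L : ℕ) :
    (L : ℝ) * (Lam (fun j => (win g l j, pos M h j)) - Lam (pos (w := w) M h)) ≤
      Lam (fun j => (win g (L * l) j, pos M h j)) - Lam (pos (w := w) M h) := by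
  induction L with
  | zero =>
    have hinj : Function.Injective (fun m : ZMod M => ((fun i => 0 : Fin (0 * l) → ℕ), m)) := by
      intro a b hab
      simpa using hab
    have h2 := Lam_comp_inj (pos (w := w) M h) _ hinj
    have h3 : (fun j : ZMod w => (win g (0 * l) j, pos M h j)) =
        fun ω => ((fun i => 0 : Fin (0 * l) → ℕ), pos M h ω) := by
      funext j
      refine Prod.ext ?_ rfl
      funext i
      exact absurd i.2 (by simp)
    rw [h3, h2]
    simp
  | succ L ih =>
    have h1 := Lam_win_add g M h (L * l) l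
    have h2 : (L + 1) * l = L * l + l := by ring
    rw [h2]
    push_cast
    linarith

/-- Fibres of the reduction map. -/
theorem cnt_pos_eq (M : ℕ) [NeZero M] (h : M ∣ w) (ω : ZMod w) :
    cnt (pos (w := w) M h) ω * M = w := by
  have hfib : ∀ m : ZMod M, (univ.filter fun j : ZMod w => pos M h j = m).card =
      cnt (pos (w := w) M h) ω := by
    intro m
    unfold cnt pos
    have hs := ZMod.castHom_surjective h
    have h5 := AddMonoidHom.card_fiber_eq_of_mem_range (ZMod.castHom h (ZMod M)).toAddMonoidHom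
      (hs m) (hs (ZMod.castHom h (ZMod M) ω))
    convert h5 using 3
    all_goals rfl
  have h1 : (univ : Finset (ZMod w)).card = ∑ m : ZMod M,
      (univ.filter fun j : ZMod w => pos M h j = m).card :=
    card_eq_sum_card_fiberwise (fun _ _ => mem_univ _)
  rw [sum_congr rfl (fun m _ => hfib m)] at h1
  simp only [card_univ, ZMod.card, sum_const, smul_eq_mul] at h1
  rw [mul_comm]; exact h1.symm

theorem Lam_pos_eq (M : ℕ) [NeZero M] (h : M ∣ w) :
    Lam (pos (w := w) M h) = w * (Real.log w - Real.log M) := by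
  have hw : (w : ℝ) ≠ 0 := by exact_mod_cast NeZero.ne w
  have hM : (M : ℝ) ≠ 0 := by exact_mod_cast NeZero.ne M
  have h1 : ∀ ω, Real.log (cnt (pos (w := w) M h) ω) = Real.log w - Real.log M := by
    intro ω
    have h2 := cnt_pos_eq (w := w) M h ω
    have h3 : ((cnt (pos (w := w) M h) ω : ℕ) : ℝ) = w / M := by
      rw [eq_div_iff hM]
      exact_mod_cast h2
    rw [h3, Real.log_div hw hM]
  unfold Lam
  simp only [h1]
  rw [sum_const, card_univ, ZMod.card, nsmul_eq_mul]

/-- Total entropy of the windows of length `n`. -/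
def En (g : ZMod w → ℕ) (n : ℕ) : ℝ := w * Real.log w - Lam (fun j => win g n j)

theorem En_nonneg (g : ZMod w → ℕ) (n : ℕ) : 0 ≤ En g n := by
  have := Lam_le (fun j : ZMod w => win g n j)
  rw [ZMod.card] at this
  unfold En
  linarith

theorem En_mul_le (g : ZMod w → ℕ) (l L : ℕ) : En g (L * l) ≤ L * En g l := by
  have h1 := Lam_win_mul g 1 (one_dvd w) l L
  have hinj : ∀ n, Function.Injective (fun x : Fin n → ℕ => (x, (0 : ZMod 1))) := by
    intro n a b hab
    simpa using hab
  have h3 : ∀ n, Lam (fun j : ZMod w => (win g n j, pos 1 (one_dvd w) j)) =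
      Lam (fun j => win g n j) := by
    intro n
    rw [← Lam_comp_inj (fun j => win g n j) _ (hinj n)]
    congr 1
    funext j
    exact Prod.ext rfl (Subsingleton.elim _ _)
  have h4 := Lam_pos_eq (w := w) 1 (one_dvd w)
  rw [h3, h3, h4] at h1
  simp only [Nat.cast_one, Real.log_one, sub_zero] at h1
  unfold En
  linarith

/-- The entropy of the cyclic sequence is at most the sum of `log ((g+1)(g+2))`. -/
theorem En_one_le (g : ZMod w → ℕ) :
    En g 1 ≤ ∑ j, Real.log (((g j : ℝ) + 1) * ((g j : ℝ) + 2)) := by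
  have hsum : ∀ n : ℕ, ∑ a ∈ range n, ((1 : ℝ) / (((a : ℝ) + 1) * ((a : ℝ) + 2))) =
      1 - 1 / ((n : ℝ) + 1) := by
    intro n
    induction n with
    | zero => simp
    | succ n ih =>
      rw [sum_range_succ, ih]
      push_cast
      have h1 : (n : ℝ) + 1 ≠ 0 := by positivity
      have h2 : (n : ℝ) + 2 ≠ 0 := by positivity
      have h3 : (n : ℝ) + 1 + 1 ≠ 0 := by positivity
      field_simp
      ring
  have h1 := entropy_le (Ω := ZMod w) g (fun a => (1 : ℝ) / (((a : ℝ) + 1) * ((a : ℝ) + 2)))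
    (fun a => by positivity) (fun s => by
      obtain ⟨n, hn⟩ := s.exists_nat_subset_range
      calc ∑ a ∈ s, ((1 : ℝ) / (((a : ℝ) + 1) * ((a : ℝ) + 2)))
          ≤ ∑ a ∈ range n, ((1 : ℝ) / (((a : ℝ) + 1) * ((a : ℝ) + 2))) :=
            sum_le_sum_of_subset_of_nonneg hn (fun _ _ _ => by positivity)
        _ = 1 - 1 / ((n : ℝ) + 1) := hsum n
        _ ≤ 1 := by
            have : (0 : ℝ) ≤ 1 / ((n : ℝ) + 1) := by positivity
            linarith)
  rw [ZMod.card] at h1
  have h2 : Lam (fun j : ZMod w => win g 1 j) = Lam g := by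
    have hinj : Function.Injective (fun a : ℕ => (fun _ => a : Fin 1 → ℕ)) := by
      intro a b hab
      exact congrFun hab 0
    rw [← Lam_comp_inj g _ hinj]
    congr 1
    funext j i
    have : i = 0 := Subsingleton.elim _ _
    subst this
    simp [win]
  unfold En
  rw [h2]
  refine le_trans h1 (le_of_eq (sum_congr rfl fun j _ => ?_))
  rw [one_div, Real.log_inv]
  ring

/-- **Independence at some scale.** -/
theorem exists_scale (g : ZMod w → ℕ) (L l₀ S : ℕ) (hL : 0 < L) (hl₀ : 0 < l₀) (hS : 0 < S)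
    (M : ℕ → ℕ) (hM0 : ∀ s, 0 < M s) (hM : ∀ s, s < S → M s ∣ w)
    (R : ∀ s : ℕ, (Fin (L ^ s * l₀) → ℕ) → ZMod (M s) → ℝ)
    (hR : ∀ s x m, 0 < R s x m) (A : ℕ → ℝ) (hA0 : ∀ s, 0 < A s)
    (hA : ∀ s x, haveI : NeZero (M s) := ⟨(hM0 s).ne'⟩; ∑ m, R s x m ≤ A s * M s) :
    ∃ s, ∃ hs : s < S,
      ∑ j : ZMod w, Real.log (R s (win g (L ^ s * l₀) j) (pos (M s) (hM s hs) j)) ≤
        w * Real.log (A s) + (L ^ s * l₀ : ℕ) *
          (∑ j, Real.log (((g j : ℝ) + 1) * ((g j : ℝ) + 2))) / S +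
          w * Real.log (M s) / L := by
  set G := ∑ j, Real.log (((g j : ℝ) + 1) * ((g j : ℝ) + 2)) with hG
  set ls : ℕ → ℕ := fun s => L ^ s * l₀ with hls
  have hlpos : ∀ s, (0 : ℝ) < ls s := by
    intro s
    have : 0 < L ^ s * l₀ := Nat.mul_pos (Nat.pow_pos hL) hl₀
    exact_mod_cast this
  have hLr : (0 : ℝ) < L := by exact_mod_cast hL
  have hSr : (0 : ℝ) < S := by exact_mod_cast hS
  set a : ℕ → ℝ := fun s => En g (ls s) / ls s with ha
  have ha0 : a 0 ≤ G := by
    have h1 : En g (ls 0) ≤ (l₀ : ℝ) * En g 1 := by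
      have := En_mul_le g 1 l₀
      simpa [hls] using this
    have h2 : (ls 0 : ℝ) = l₀ := by simp [hls]
    have h3 : (0 : ℝ) < l₀ := by exact_mod_cast hl₀
    rw [ha]
    show En g (ls 0) / (ls 0 : ℝ) ≤ G
    rw [h2, div_le_iff₀ h3]
    have := En_one_le g
    nlinarith
  have hpig : ∃ s, s < S ∧ a s - a (s + 1) ≤ G / S := by
    by_contra hcon
    push Not at hcon
    have h1 : ∑ s ∈ range S, (G / S) < ∑ s ∈ range S, (a s - a (s + 1)) :=
      sum_lt_sum_of_nonempty ⟨0, mem_range.2 hS⟩ (fun s hs => hcon s (mem_range.1 hs))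
    rw [sum_range_sub', sum_const, card_range, nsmul_eq_mul] at h1
    have h2 : 0 ≤ a S := div_nonneg (En_nonneg g _) (hlpos S).le
    have h3 : (S : ℝ) * (G / S) = G := by field_simp
    linarith
  obtain ⟨s, hs, hsa⟩ := hpig
  refine ⟨s, hs, ?_⟩
  have : NeZero (M s) := ⟨(hM0 s).ne'⟩
  have hMr : (0 : ℝ) < M s := by exact_mod_cast hM0 s
  have h1 := sum_log_le (fun j : ZMod w => win g (ls s) j) (pos (M s) (hM s hs)) (R s) (hR s)
    (A s * M s) (mul_pos (hA0 s) hMr) (hA s)
  rw [ZMod.card, Real.log_mul (hA0 s).ne' hMr.ne'] at h1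
  have h2 := Lam_win_mul g (M s) (hM s hs) (ls s) L
  have h3 := Lam_pair_le (fun j : ZMod w => win g (L * ls s) j) (pos (M s) (hM s hs))
  have h4 := Lam_pos_eq (w := w) (M s) (hM s hs)
  have h5 : L * ls s = ls (s + 1) := by simp only [hls]; ring
  rw [h5] at h2 h3
  rw [h4] at h2
  -- `a s - a (s+1)` in terms of entropies
  have h6 : En g (ls s) - En g (ls (s + 1)) / L = ls s * (a s - a (s + 1)) := by
    have h7 : ((ls (s + 1) : ℕ) : ℝ) = L * ls s := by rw [← h5]; push_cast; ring
    have h8 := (hlpos s).ne'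
    simp only [ha]
    rw [h7]
    field_simp
  have h9 : En g (ls s) - En g (ls (s + 1)) / L ≤ ls s * G / S := by
    rw [h6, mul_div_assoc]
    exact mul_le_mul_of_nonneg_left hsa (hlpos s).le
  have h10 : Lam (fun j : ZMod w => (win g (ls s) j, pos (M s) (hM s hs) j)) ≤
      w * (Real.log w - Real.log (M s)) +
        (Lam (fun j : ZMod w => win g (ls (s + 1)) j) - w * (Real.log w - Real.log (M s))) / L := by
    have h11 : (Lam (fun j : ZMod w => (win g (ls s) j, pos (M s) (hM s hs) j)) -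
        w * (Real.log w - Real.log (M s))) ≤
        (Lam (fun j : ZMod w => win g (ls (s + 1)) j) - w * (Real.log w - Real.log (M s))) / L := by
      rw [le_div_iff₀ hLr]
      linarith
    linarith
  have h12 : w * Real.log w - Lam (fun j : ZMod w => win g (ls s) j) = En g (ls s) := rfl
  have h13 : Lam (fun j : ZMod w => win g (ls (s + 1)) j) =
      w * Real.log w - En g (ls (s + 1)) := by unfold En; ring
  rw [h13] at h10
  have h14 : (w * Real.log w - En g (ls (s + 1)) - w * (Real.log w - Real.log (M s))) / L =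
      w * Real.log (M s) / L - En g (ls (s + 1)) / L := by ring
  rw [h14] at h10
  have h15 : (ls s : ℝ) = ((L ^ s * l₀ : ℕ) : ℝ) := rfl
  rw [← h15]
  refine le_trans h1 ?_
  linarith

end

end Pool.Agent.Lib.MP_f64c7e_nt
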