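import Pool.Agent.Lib.MP_f64c7e_nt.Kraft
import Pool.Agent.Lib.MP_f64c7e_nt.Windows

/-!
The number of points of the graph of `Φ` modulo `2^K` on a line is at most `exp (ε K)`.
-/

set_option autoImplicit false

open Finset
open scoped Classical

namespace Pool.Agent.Lib.MP_f64c7e_nt

noncomputable section

theorem neg_log_chp_cons (g : ℕ) (B : List ℕ) :
    - Real.log (chp (g :: B)) = Real.log (((g : ℝ) + 1) * ((g : ℝ) + 2)) - Real.log (chp B) := by
  have h1 : (0 : ℝ) < ((g : ℝ) + 1) * ((g : ℝ) + 2) := by positivity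
  have h2 : chp (g :: B) = 1 / (((g : ℝ) + 1) * ((g : ℝ) + 2)) * chp B := rfl
  rw [h2, Real.log_mul (by positivity) (chp_pos B).ne', one_div, Real.log_inv]
  ring

theorem neg_log_chp_le {ε A : ℝ}
    (hA : ∀ g : ℕ, Real.log (((g : ℝ) + 1) * ((g : ℝ) + 2)) ≤ ε * (g + 1) + A) (B : List ℕ) :
    - Real.log (chp B) ≤ ε * tl B + A * B.length := by
  induction B with
  | nil => simp [chp]
  | cons g B ih =>
    rw [neg_log_chp_cons]
    have := hA g
    simp only [tl_cons, List.length_cons]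
    push_cast
    linarith

theorem neg_log_chp_le' {K : ℕ} (B : List ℕ) (h : tl B ≤ K) :
    - Real.log (chp B) ≤ B.length * Real.log (((K : ℝ) + 1) * ((K : ℝ) + 2)) := by
  induction B with
  | nil => simp [chp]
  | cons g B ih =>
    rw [neg_log_chp_cons]
    simp only [tl_cons] at h
    have h1 := ih (by omega)
    have h2 : (g : ℝ) ≤ K := by exact_mod_cast (by omega : g ≤ K)
    have h3 : Real.log (((g : ℝ) + 1) * ((g : ℝ) + 2)) ≤
        Real.log (((K : ℝ) + 1) * ((K : ℝ) + 2)) := by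
      apply Real.log_le_log (by positivity)
      have : (0 : ℝ) ≤ g := Nat.cast_nonneg g
      nlinarith
    simp only [List.length_cons]
    push_cast
    linarith

theorem log_bound {ε : ℝ} (hε : 0 < ε) (g : ℕ) :
    Real.log (((g : ℝ) + 1) * ((g : ℝ) + 2)) ≤ ε * (g + 1) + 2 * Real.log (4 / ε) := by
  have h1 : Real.log (((g : ℝ) + 1) * ((g : ℝ) + 2)) ≤ 2 * Real.log ((g : ℝ) + 2) := by
    have : 2 * Real.log ((g : ℝ) + 2) = Real.log (((g : ℝ) + 2) * ((g : ℝ) + 2)) := by
      rw [Real.log_mul (by positivity) (by positivity)]; ring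
    rw [this]
    apply Real.log_le_log (by positivity)
    have : (0 : ℝ) ≤ g := Nat.cast_nonneg g
    nlinarith
  have h2 : Real.log (ε / 4 * ((g : ℝ) + 2)) ≤ ε / 4 * ((g : ℝ) + 2) - 1 :=
    Real.log_le_sub_one_of_pos (by positivity)
  rw [Real.log_mul (by positivity) (by positivity)] at h2
  have h3 : Real.log (4 / ε) = - Real.log (ε / 4) := by
    rw [← Real.log_inv]; congr 1; field_simp
  have h4 : (0 : ℝ) ≤ g := Nat.cast_nonneg g
  nlinarith [mul_nonneg hε.le h4]

theorem sum_zmod (M : ℕ) [NeZero M] (f : ℕ → ℝ) :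
    ∑ m : ZMod M, f m.val = ∑ m ∈ range M, f m := by
  cases M with
  | zero => exact absurd rfl (NeZero.ne 0)
  | succ n => exact Fin.sum_univ_eq_sum_range f (n + 1)

/-- Few ones: the trivial bound. -/
theorem card_few {ε A : ℝ}
    (hA : ∀ g : ℕ, Real.log (((g : ℝ) + 1) * ((g : ℝ) + 2)) ≤ ε * (g + 1) + A)
    (K w : ℕ) (S : Finset (List ℕ)) (hK : ∀ Y ∈ S, tl Y = K) (hw : ∀ Y ∈ S, Y.length = w) :
    (S.card : ℝ) ≤ Real.exp (ε * K + A * w) := by
  have h1 := sum_chp w S hw
  have h2 : ∀ Y ∈ S, Real.exp (-(ε * K + A * w)) ≤ chp Y := by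
    intro Y hY
    have h3 := neg_log_chp_le hA Y
    rw [hK Y hY, hw Y hY] at h3
    rw [← Real.exp_log (chp_pos Y)]
    exact Real.exp_le_exp.2 (by linarith)
  have h4 : (S.card : ℝ) * Real.exp (-(ε * K + A * w)) ≤ 1 := by
    calc (S.card : ℝ) * Real.exp (-(ε * K + A * w)) = ∑ _Y ∈ S, Real.exp (-(ε * K + A * w)) := by
          rw [sum_const, nsmul_eq_mul]
      _ ≤ ∑ Y ∈ S, chp Y := sum_le_sum h2
      _ ≤ 1 := h1
  rw [Real.exp_neg] at h4
  have h5 := Real.exp_pos (ε * K + A * w)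
  rwa [mul_inv_le_iff₀ h5, one_mul] at h4

/-- Gaps of a word. -/
theorem tl_eq_sum (Y : List ℕ) : tl Y = ∑ i ∈ range Y.length, (Y.getD i 0 + 1) := by
  induction Y with
  | nil => simp
  | cons g Y ih =>
    rw [List.length_cons, sum_range_succ', tl_cons, ih]
    simp only [List.getD_cons_succ, List.getD_cons_zero]
    ring

theorem tl_block (Y : List ℕ) (j l : ℕ) (h : j + l ≤ Y.length) :
    tl ((Y.drop j).take l) = ∑ i ∈ range l, (Y.getD (j + i) 0 + 1) := by
  have hlen : ((Y.drop j).take l).length = l := by simp; omega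
  rw [tl_eq_sum, hlen]
  refine sum_congr rfl fun i hi => ?_
  rw [mem_range] at hi
  congr 1
  simp only [List.getD_eq_getElem?_getD]
  rw [List.getElem?_take_of_lt hi, List.getElem?_drop]

theorem sum_tl_block (Y : List ℕ) (n l : ℕ) (h : n + l ≤ Y.length + 1) :
    ∑ j ∈ range n, tl ((Y.drop j).take l) ≤ l * tl Y := by
  calc ∑ j ∈ range n, tl ((Y.drop j).take l)
      = ∑ j ∈ range n, ∑ i ∈ range l, (Y.getD (j + i) 0 + 1) := by
        refine sum_congr rfl fun j hj => ?_
        rw [mem_range] at hj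
        exact tl_block Y j l (by omega)
    _ = ∑ i ∈ range l, ∑ j ∈ range n, (Y.getD (j + i) 0 + 1) := sum_comm
    _ ≤ ∑ _i ∈ range l, tl Y := by
        refine sum_le_sum fun i hi => ?_
        rw [mem_range] at hi
        rw [tl_eq_sum]
        have h1 : ∑ j ∈ range n, (Y.getD (j + i) 0 + 1) =
            ∑ j ∈ (range n).image (fun j => j + i), (Y.getD j 0 + 1) := by
          rw [sum_image (by intro a _ b _ hab; simpa using hab)]
        rw [h1]
        refine sum_le_sum_of_subset ?_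
        intro x hx
        rw [mem_image] at hx
        obtain ⟨j, hj, rfl⟩ := hx
        rw [mem_range] at hj ⊢
        omega
    _ = l * tl Y := by rw [sum_const, card_range, smul_eq_mul]

theorem sum_blocks (f : ℕ → ℝ) (n l : ℕ) :
    ∑ r ∈ range l, ∑ b ∈ range n, f (r + b * l) = ∑ j ∈ range (n * l), f j := by
  induction n with
  | zero => simp
  | succ n ih =>
    have h1 : (n + 1) * l = n * l + l := by ring
    rw [h1, sum_range_add, ← ih]
    simp only [sum_range_succ, sum_add_distrib]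
    congr 1
    refine sum_congr rfl fun r _ => ?_
    rw [add_comm]

/-- **Many ones.** -/
theorem card_many {ε A : ℝ} (hε : 0 < ε)
    (hA : ∀ g : ℕ, Real.log (((g : ℝ) + 1) * ((g : ℝ) + 2)) ≤ ε * (g + 1) + A)
    (C L l₀ Sm : ℕ) (hC : A ≤ ε * C) (hC0 : 0 < C) (hL : 0 < L) (hLε : C * Real.log 2 ≤ ε * L)
    (hl₀ : 0 < l₀) (hSm : 0 < Sm) (hSε : 2 ≤ ε * Sm)
    (hlog : ∀ l : ℕ, l₀ ≤ l →
      Real.log 2 + 2 * Real.log ((C * l : ℕ) + 1) + Real.log (4 * (C * l : ℕ) + 1) ≤ ε * l)
    (u : ℤ_[2]) (hu : ¬ (2 : ℤ_[2]) ∣ u)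
    (K w : ℕ) (S : Finset (List ℕ)) (hS : S.Nonempty) (hline : OnLine u K S)
    (hlen : ∀ Y ∈ S, Y.length = w) (hw : 2 ^ (C * (L ^ Sm * l₀)) ≤ w) :
    Real.log S.card ≤ 5 * ε * K + Real.log (Sm * (L ^ Sm * l₀) : ℕ) +
      (2 ^ (C * (L ^ Sm * l₀)) + 2 * (L ^ Sm * l₀) : ℕ) *
        Real.log (((K : ℝ) + 1) * ((K : ℝ) + 2)) := by
  set lm := L ^ Sm * l₀ with hlm
  set Mx := 2 ^ (C * lm) with hMx
  have hMxpos : 0 < Mx := Nat.pow_pos (by norm_num)
  set w' := Mx * (w / Mx) with hw'
  have hw'le : w' ≤ w := Nat.mul_div_le w Mx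
  have hw'ge : w < w' + Mx := by
    have := Nat.lt_mul_div_succ w hMxpos
    rw [hw']
    calc w < Mx * (w / Mx + 1) := this
      _ = Mx * (w / Mx) + Mx := by ring
  have hq1 : 1 ≤ w / Mx := (Nat.one_le_div_iff hMxpos).2 hw
  have hw'Mx : Mx ≤ w' := by
    rw [hw']; exact Nat.le_mul_of_pos_right _ hq1
  have hw'pos : 0 < w' := lt_of_lt_of_le hMxpos hw'Mx
  have : NeZero w' := ⟨hw'pos.ne'⟩
  set ls : ℕ → ℕ := fun s => L ^ s * l₀ with hls
  have hlspos : ∀ s, 0 < ls s := fun s => Nat.mul_pos (Nat.pow_pos hL) hl₀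
  have hls_le : ∀ s, s ≤ Sm → ls s ≤ lm := by
    intro s hs
    exact Nat.mul_le_mul_right _ (Nat.pow_le_pow_right hL hs)
  have hls_ge : ∀ s, l₀ ≤ ls s := by
    intro s
    exact Nat.le_mul_of_pos_left _ (Nat.pow_pos hL)
  set Ms : ℕ → ℕ := fun s => 2 ^ (C * ls s) with hMs
  have hMspos : ∀ s, 0 < Ms s := fun s => Nat.pow_pos (by norm_num)
  have hMsdvd : ∀ s, s < Sm → Ms s ∣ w' := by
    intro s hs
    refine Dvd.dvd.mul_right ?_ _
    exact pow_dvd_pow 2 (Nat.mul_le_mul_left _ (hls_le s hs.le))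
  have hlsw : ∀ s, s < Sm → ls s ≤ w' := by
    intro s hs
    calc ls s ≤ lm := hls_le s hs.le
      _ ≤ C * lm := Nat.le_mul_of_pos_left _ hC0
      _ ≤ Mx := Nat.lt_two_pow_self.le
      _ ≤ w' := hw'Mx
  -- number of blocks
  set ns : ℕ → ℕ := fun s => w' / ls s - 1 with hns
  have hns1 : ∀ s, s < Sm → ns s * ls s + ls s ≤ w' := by
    intro s hs
    have h1 : 1 ≤ w' / ls s := (Nat.one_le_div_iff (hlspos s)).2 (hlsw s hs)
    have h2 : ns s * ls s + ls s = (w' / ls s) * ls s := by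
      simp only [hns]
      obtain ⟨c, hc⟩ : ∃ c, w' / ls s = c + 1 := ⟨w' / ls s - 1, by omega⟩
      rw [hc]; simp; ring
    rw [h2]; exact Nat.div_mul_le_self _ _
  have hns2 : ∀ s, s < Sm → w' < ns s * ls s + 2 * ls s := by
    intro s hs
    have h1 : 1 ≤ w' / ls s := (Nat.one_le_div_iff (hlspos s)).2 (hlsw s hs)
    have h2 : ns s * ls s + ls s = (w' / ls s) * ls s := by
      simp only [hns]
      obtain ⟨c, hc⟩ : ∃ c, w' / ls s = c + 1 := ⟨w' / ls s - 1, by omega⟩
      rw [hc]; simp; ring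
    have h3 := Nat.lt_mul_div_succ w' (hlspos s)
    have h4 : ls s * (w' / ls s + 1) = (w' / ls s) * ls s + ls s := by ring
    omega
  -- the good word
  have hex : ∃ Y ∈ S, ∀ i ∈ (range Sm) ×ˢ (range lm),
      Real.log S.card - Real.log ((range Sm) ×ˢ (range lm)).card ≤
        - Real.log (Wt (C * ls i.1) (ls i.1) (ns i.1) (i.2 % ls i.1) u Y) := by
    refine exists_small S hS _ _ ?_ ?_ ?_
    · intro i hi
      rw [mem_product, mem_range, mem_range] at hi
      have h1 := hns1 i.1 hi.1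
      have h2 := Nat.mod_lt i.2 (hlspos i.1)
      exact kraft_t _ _ _ _ u K w S hline hlen (by omega)
    · refine ⟨(0, 0), ?_⟩
      rw [mem_product, mem_range, mem_range]
      exact ⟨hSm, Nat.mul_pos (Nat.pow_pos hL) hl₀⟩
    · intro i hi Y hY
      rw [mem_product, mem_range, mem_range] at hi
      have h1 := hns1 i.1 hi.1
      have h2 := Nat.mod_lt i.2 (hlspos i.1)
      exact Wt_pos _ _ (hlspos _) _ _ u Y (by rw [hlen Y hY]; omega)
  obtain ⟨Y, hYS, hY⟩ := hex
  have hYlen := hlen Y hYS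
  have hYtl := hline.1 Y hYS
  rw [card_product, card_range, card_range] at hY
  -- the cyclic sequence
  set g : ZMod w' → ℕ := fun j => Y.getD j.val 0 with hg
  have hgval : ∀ j : ℕ, j < w' → g (j : ZMod w') = Y.getD j 0 := by
    intro j hj
    simp only [hg, ZMod.val_natCast, Nat.mod_eq_of_lt hj]
  have hwin : ∀ (l j : ℕ), j + l ≤ w' → List.ofFn (win g l (j : ZMod w')) = (Y.drop j).take l := by
    intro l j hjl
    apply List.ext_getElem
    · simp; omega
    · intro i h1 h2
      have h3 : i < l := by simpa using h1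
      rw [List.getElem_ofFn, List.getElem_take, List.getElem_drop]
      simp only [win]
      rw [← Nat.cast_add, hgval _ (by omega), List.getD_eq_getElem]
  set R : ∀ s : ℕ, (Fin (L ^ s * l₀) → ℕ) → ZMod (Ms s) → ℝ := fun s x m =>
    if tl (List.ofFn x) ≤ C * ls s then
      (Rc (tl (List.ofFn x)) (u * th ^ m.val) (vl (List.ofFn x)) : ℝ) else 1 with hR
  have hR1 : ∀ s x m, 1 ≤ R s x m := by
    intro s x m
    simp only [hR]
    split_ifs
    · exact_mod_cast Rc_pos (vl_lt _)
    · exact le_rfl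
  obtain ⟨s, hs, hsc⟩ := exists_scale g L l₀ Sm hL hl₀ hSm Ms hMspos hMsdvd R
    (fun s x m => lt_of_lt_of_le one_pos (hR1 s x m)) (fun s => 4 * (C * ls s : ℕ) + 1)
    (fun s => by positivity) (by
      intro s x
      have : NeZero (Ms s) := ⟨(hMspos s).ne'⟩
      simp only [hR]
      split_ifs with h
      · have h1 := sum_zmod (Ms s) (fun m =>
          (Rc (tl (List.ofFn x)) (u * th ^ m) (vl (List.ofFn x)) : ℝ))
        rw [h1]
        have h2 := sum_Rc_le (t := tl (List.ofFn x)) (M := Ms s) (x := vl (List.ofFn x))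
          (pow_dvd_pow 2 h) (vl_lt _) u hu
        have h3 : (∑ m ∈ range (Ms s), (Rc (tl (List.ofFn x)) (u * th ^ m)
            (vl (List.ofFn x)) : ℝ)) ≤ (4 * (tl (List.ofFn x) : ℝ) + 1) * Ms s := by
          exact_mod_cast h2
        refine le_trans h3 ?_
        refine mul_le_mul_of_nonneg_right ?_ (Nat.cast_nonneg _)
        have : (tl (List.ofFn x) : ℝ) ≤ ((C * ls s : ℕ) : ℝ) := by exact_mod_cast h
        linarith
      · rw [sum_const, card_univ, ZMod.card, nsmul_eq_mul, mul_one]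
        refine le_mul_of_one_le_left (Nat.cast_nonneg _) ?_
        have : (0 : ℝ) ≤ ((C * ls s : ℕ) : ℝ) := Nat.cast_nonneg _
        linarith)
  set l := ls s with hl
  have hlpos : 0 < l := hlspos s
  have hlr : (0 : ℝ) < l := by exact_mod_cast hlpos
  set N := C * l with hN
  set n := ns s with hn
  have hn1 : n * l + l ≤ w' := hns1 s hs
  have hn2 : w' < n * l + 2 * l := hns2 s hs
  -- the cost of one block
  set F : ℕ → ℝ := fun j => Real.log (R s (win g (L ^ s * l₀) (j : ZMod w'))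
    (pos (Ms s) (hMsdvd s hs) (j : ZMod w'))) with hF
  have hF0 : ∀ j, 0 ≤ F j := fun j => Real.log_nonneg (hR1 _ _ _)
  have hcost : ∀ j ∈ range (n * l), cost N l u Y j ≤
      (Real.log 2 + 2 * Real.log ((N : ℝ) + 1)) + 2 * ε * tl ((Y.drop j).take l) + F j := by
    intro j hj
    rw [mem_range] at hj
    have hjl : j + l ≤ w' := by omega
    set B := (Y.drop j).take l with hB
    have hBlen : B.length = l := by rw [hB]; simp; omega
    have hBne : B ≠ [] := by
      intro h; rw [h] at hBlen; simp at hBlen; omega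
    have htl : 1 ≤ tl B := by have := length_le_tl B; omega
    have hwinB : List.ofFn (win g (L ^ s * l₀) (j : ZMod w')) = B := hwin (L ^ s * l₀) j hjl
    have hFj : F j = Real.log (if tl B ≤ N then
        (Rc (tl B) (u * th ^ (j % Ms s)) (vl B) : ℝ) else 1) := by
      simp only [hF, hR]
      rw [hwinB]
      have : (pos (Ms s) (hMsdvd s hs) (j : ZMod w')).val = j % Ms s := by
        unfold pos
        rw [map_natCast, ZMod.val_natCast]
      rw [this]
    rw [hFj]
    have hlogN : 0 ≤ Real.log ((N : ℝ) + 1) := Real.log_nonneg (by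
      have : (0 : ℝ) ≤ N := Nat.cast_nonneg _
      linarith)
    unfold cost qb
    rw [← hB]
    split_ifs with h
    · have h1 : (0 : ℝ) < tl B := by exact_mod_cast htl
      have h2 : (0 : ℝ) < Rc (tl B) (u * th ^ j) (vl B) := by exact_mod_cast Rc_pos (vl_lt B)
      have h3 : Rc (tl B) (u * th ^ j) (vl B) = Rc (tl B) (u * th ^ (j % Ms s)) (vl B) :=
        Rc_congr (pow_dvd_pow 2 h) u j _
      have h4 : - Real.log (1 / 2 * (1 / ((tl B : ℝ) * (tl B + 1))) *
          (1 / Rc (tl B) (u * th ^ j) (vl B))) = Real.log 2 + Real.log ((tl B : ℝ) * (tl B + 1)) +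
          Real.log (Rc (tl B) (u * th ^ j) (vl B)) := by
        rw [Real.log_mul (by positivity) (by positivity), Real.log_mul (by norm_num) (by positivity),
          one_div, one_div, one_div, Real.log_inv, Real.log_inv, Real.log_inv]
        ring
      rw [h4, h3]
      have h5 : Real.log ((tl B : ℝ) * (tl B + 1)) ≤ 2 * Real.log ((N : ℝ) + 1) := by
        have : 2 * Real.log ((N : ℝ) + 1) = Real.log (((N : ℝ) + 1) * ((N : ℝ) + 1)) := by
          rw [Real.log_mul (by positivity) (by positivity)]; ring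
        rw [this]
        apply Real.log_le_log (by positivity)
        have h6 : (tl B : ℝ) ≤ N := by exact_mod_cast h
        nlinarith
      have h7 : 0 ≤ 2 * ε * (tl B : ℝ) := by positivity
      linarith
    · have h1 : - Real.log (1 / 2 * chp B) = Real.log 2 + - Real.log (chp B) := by
        rw [Real.log_mul (by norm_num) (chp_pos B).ne', one_div, Real.log_inv]; ring
      rw [h1, Real.log_one]
      have h2 := neg_log_chp_le hA B
      rw [hBlen] at h2
      have h3 : (N : ℝ) ≤ tl B := by exact_mod_cast (by omega : N ≤ tl B)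
      have h4 : A * l ≤ ε * tl B := by
        calc A * l ≤ ε * C * l := mul_le_mul_of_nonneg_right hC hlr.le
          _ = ε * (N : ℝ) := by rw [hN]; push_cast; ring
          _ ≤ ε * tl B := mul_le_mul_of_nonneg_left h3 hε.le
      linarith
  -- sum over the blocks
  have hKr : (w' : ℝ) ≤ K := by
    have h1 := length_le_tl Y
    rw [hYlen, hYtl] at h1
    exact_mod_cast hw'le.trans h1
  have hK0 : (0 : ℝ) ≤ K := Nat.cast_nonneg K
  have hsumF : ∑ j ∈ range (n * l), F j ≤
      K * Real.log (4 * (N : ℝ) + 1) + l * (2 * K) / Sm + K * (C * l * Real.log 2) / L := by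
    have h1 : ∑ j ∈ range (n * l), F j ≤ ∑ j ∈ range w', F j :=
      sum_le_sum_of_subset_of_nonneg (range_subset_range.2 (by omega)) (fun j _ _ => hF0 j)
    have h2 : ∑ j ∈ range w', F j = ∑ j : ZMod w', Real.log (R s (win g (L ^ s * l₀) j)
        (pos (Ms s) (hMsdvd s hs) j)) := by
      rw [← sum_zmod w' F]
      refine sum_congr rfl fun j _ => ?_
      simp only [hF, ZMod.natCast_zmod_val]
    have h3 : ∑ j : ZMod w', Real.log (((g j : ℝ) + 1) * ((g j : ℝ) + 2)) ≤ 2 * K := by
      have h4 : ∀ j : ZMod w', Real.log (((g j : ℝ) + 1) * ((g j : ℝ) + 2)) ≤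
          2 * ((Y.getD j.val 0 + 1 : ℕ) : ℝ) := by
        intro j
        have h5 : (0 : ℝ) ≤ g j := Nat.cast_nonneg _
        rw [Real.log_mul (by positivity) (by positivity)]
        have h6 := Real.log_le_sub_one_of_pos (show (0 : ℝ) < (g j : ℝ) + 1 by positivity)
        have h7 := Real.log_le_sub_one_of_pos (show (0 : ℝ) < (g j : ℝ) + 2 by positivity)
        have h8 : ((Y.getD j.val 0 + 1 : ℕ) : ℝ) = (g j : ℝ) + 1 := by simp [hg]
        rw [h8]
        linarith
      calc ∑ j : ZMod w', Real.log (((g j : ℝ) + 1) * ((g j : ℝ) + 2))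
          ≤ ∑ j : ZMod w', 2 * ((Y.getD j.val 0 + 1 : ℕ) : ℝ) := sum_le_sum fun j _ => h4 j
        _ = 2 * ∑ j : ZMod w', ((Y.getD j.val 0 + 1 : ℕ) : ℝ) := by rw [mul_sum]
        _ = 2 * ∑ j ∈ range w', ((Y.getD j 0 + 1 : ℕ) : ℝ) := by
            rw [sum_zmod w' (fun j => ((Y.getD j 0 + 1 : ℕ) : ℝ))]
        _ ≤ 2 * ((tl Y : ℕ) : ℝ) := by
            refine mul_le_mul_of_nonneg_left ?_ (by norm_num)
            rw [tl_eq_sum, ← Nat.cast_sum]
            norm_cast
            exact sum_le_sum_of_subset (range_subset_range.2 (by omega))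
        _ = 2 * K := by rw [hYtl]
    rw [h2] at h1
    refine le_trans h1 (le_trans hsc ?_)
    have h10 : ((L ^ s * l₀ : ℕ) : ℝ) = l := rfl
    simp only [h10]
    have hlog0 : 0 ≤ Real.log (4 * (N : ℝ) + 1) := Real.log_nonneg (by
      have : (0 : ℝ) ≤ N := Nat.cast_nonneg _
      linarith)
    have h11 : Real.log (Ms s) = C * l * Real.log 2 := by
      simp only [hMs]
      push_cast
      rw [Real.log_pow]
      push_cast
      ring
    rw [h11]
    have h12 : (w' : ℝ) * Real.log (4 * (N : ℝ) + 1) ≤ K * Real.log (4 * (N : ℝ) + 1) :=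
      mul_le_mul_of_nonneg_right hKr hlog0
    have hSr : (0 : ℝ) < Sm := by exact_mod_cast hSm
    have hLr : (0 : ℝ) < L := by exact_mod_cast hL
    have h13 : (l : ℝ) * (∑ j : ZMod w', Real.log (((g j : ℝ) + 1) * ((g j : ℝ) + 2))) / Sm ≤
        l * (2 * K) / Sm := by
      apply div_le_div_of_nonneg_right _ hSr.le
      exact mul_le_mul_of_nonneg_left h3 hlr.le
    have h14 : (w' : ℝ) * (C * l * Real.log 2) / L ≤ K * (C * l * Real.log 2) / L := by
      apply div_le_div_of_nonneg_right _ hLr.le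
      refine mul_le_mul_of_nonneg_right hKr ?_
      have := Real.log_nonneg (show (1 : ℝ) ≤ 2 by norm_num)
      positivity
    linarith
  have hsumcost : ∑ j ∈ range (n * l), cost N l u Y j ≤ l * (5 * ε * K) := by
    refine le_trans (sum_le_sum hcost) ?_
    rw [sum_add_distrib, sum_add_distrib, sum_const, card_range, nsmul_eq_mul, ← mul_sum,
      ← Nat.cast_sum]
    have h1 : ((∑ j ∈ range (n * l), tl ((Y.drop j).take l) : ℕ) : ℝ) ≤ l * K := by
      have h2 := sum_tl_block Y (n * l) l (by omega)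
      rw [hYtl] at h2
      exact_mod_cast h2
    have h3 : ((n * l : ℕ) : ℝ) ≤ K := le_trans (by exact_mod_cast (by omega : n * l ≤ w')) hKr
    have h4 : 0 ≤ Real.log 2 + 2 * Real.log ((N : ℝ) + 1) := by
      have h5 := Real.log_nonneg (show (1 : ℝ) ≤ 2 by norm_num)
      have h6 : 0 ≤ Real.log ((N : ℝ) + 1) := Real.log_nonneg (by
        have : (0 : ℝ) ≤ N := Nat.cast_nonneg _
        linarith)
      linarith
    have h5 : ((n * l : ℕ) : ℝ) * (Real.log 2 + 2 * Real.log ((N : ℝ) + 1)) ≤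
        K * (Real.log 2 + 2 * Real.log ((N : ℝ) + 1)) := mul_le_mul_of_nonneg_right h3 h4
    have h6 := hlog l (hls_ge s)
    have h7 : K * (Real.log 2 + 2 * Real.log ((N : ℝ) + 1)) + K * Real.log (4 * (N : ℝ) + 1) ≤
        K * (ε * l) := by
      rw [← mul_add]
      exact mul_le_mul_of_nonneg_left h6 hK0
    have hSr : (0 : ℝ) < Sm := by exact_mod_cast hSm
    have hLr : (0 : ℝ) < L := by exact_mod_cast hL
    have h8 : (l : ℝ) * (2 * K) / Sm ≤ ε * l * K := by
      rw [div_le_iff₀ hSr]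
      have : 0 ≤ (l : ℝ) * K := by positivity
      nlinarith
    have h9 : (K : ℝ) * (C * l * Real.log 2) / L ≤ ε * l * K := by
      rw [div_le_iff₀ hLr]
      have : 0 ≤ (l : ℝ) * K := by positivity
      nlinarith
    have h10 : 2 * ε * ((∑ j ∈ range (n * l), tl ((Y.drop j).take l) : ℕ) : ℝ) ≤
        2 * ε * (l * K) := mul_le_mul_of_nonneg_left h1 (by positivity)
    nlinarith
  -- the sum of the logarithms of the weights
  have hlm_lt : ∀ r, r < l → r < lm := fun r hr => lt_of_lt_of_le hr (hls_le s hs.le)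
  set Λ := Real.log (((K : ℝ) + 1) * ((K : ℝ) + 2)) with hΛ
  have hΛ0 : 0 ≤ Λ := Real.log_nonneg (by nlinarith)
  have hW : ∀ r ∈ range l, Real.log S.card - Real.log (Sm * lm : ℕ) ≤
      ∑ b ∈ range n, cost N l u Y (r + b * l) + (Mx + 2 * lm : ℕ) * Λ := by
    intro r hr
    rw [mem_range] at hr
    have h1 := hY (s, r) (by
      rw [mem_product, mem_range, mem_range]; exact ⟨hs, hlm_lt r hr⟩)
    simp only at h1
    rw [← hl, Nat.mod_eq_of_lt hr, ← hN, ← hn,
      log_Wt N l hlpos n r u Y (by rw [hYlen]; omega)] at h1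
    have h2 : tl (Y.take r) + tl (Y.drop r) = K := by
      rw [← tl_append, List.take_append_drop, hYtl]
    have h3 : tl (Y.take (r + n * l)) + tl (Y.drop (r + n * l)) = K := by
      rw [← tl_append, List.take_append_drop, hYtl]
    have h4 := neg_log_chp_le' (K := K) (Y.take r) (by omega)
    have h5 := neg_log_chp_le' (K := K) (Y.drop (r + n * l)) (by omega)
    have h6 : (Y.take r).length = r := by simp; omega
    have h7 : (Y.drop (r + n * l)).length = w - (r + n * l) := by simp [hYlen]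
    rw [h6] at h4
    rw [h7] at h5
    have h8 : (r : ℝ) + ((w - (r + n * l) : ℕ) : ℝ) ≤ ((Mx + 2 * lm : ℕ) : ℝ) := by
      have : r + (w - (r + n * l)) ≤ Mx + 2 * lm := by
        have := hls_le s hs.le
        omega
      exact_mod_cast this
    have h9 : (r : ℝ) * Λ + ((w - (r + n * l) : ℕ) : ℝ) * Λ ≤ ((Mx + 2 * lm : ℕ) : ℝ) * Λ := by
      rw [← add_mul]
      exact mul_le_mul_of_nonneg_right h8 hΛ0
    linarith
  have hfin := sum_le_sum hW
  rw [sum_add_distrib, sum_const, sum_const, card_range, nsmul_eq_mul, nsmul_eq_mul,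
    sum_blocks (fun j => cost N l u Y j) n l] at hfin
  have h20 : (l : ℝ) * (Real.log S.card - Real.log (Sm * lm : ℕ)) ≤
      l * (5 * ε * K + (Mx + 2 * lm : ℕ) * Λ) := by
    rw [mul_add]
    linarith
  have h21 := le_of_mul_le_mul_left h20 hlr
  linarith

end

end Pool.Agent.Lib.MP_f64c7e_nt
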