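import Mathlib

/-!
Finite entropy calculus in counting form: for a function `f` on a finite set `Ω`, `Lam f` is the sum
over `Ω` of the logarithm of the size of the fibre, so that the Shannon entropy of `f` is
`log |Ω| - Lam f / |Ω|`.
-/

set_option autoImplicit false

open Finset
open scoped Classical

namespace Pool.Agent.Lib.MP_f64c7e_nt

noncomputable section

variable {Ω : Type*} [Fintype Ω] {α β γ : Type*}

/-- The number of points of `Ω` with the same value of `f` as `ω`. -/
def cnt (f : Ω → α) (ω : Ω) : ℕ := (univ.filter fun ω' => f ω' = f ω).card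

/-- The sum of the logarithms of the fibre sizes. -/
def Lam (f : Ω → α) : ℝ := ∑ ω, Real.log (cnt f ω)

omit [Fintype Ω] in
theorem cnt_pos [Fintype Ω] (f : Ω → α) (ω : Ω) : 0 < cnt f ω :=
  card_pos.2 ⟨ω, by simp⟩

theorem cnt_pos' (f : Ω → α) (ω : Ω) : (0 : ℝ) < cnt f ω := by exact_mod_cast cnt_pos f ω

theorem cnt_le (f : Ω → α) (ω : Ω) : cnt f ω ≤ Fintype.card Ω := by
  unfold cnt; exact card_le_univ _

theorem Lam_nonneg (f : Ω → α) : 0 ≤ Lam f := by
  refine sum_nonneg fun ω _ => Real.log_nonneg ?_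
  exact_mod_cast cnt_pos f ω

theorem Lam_le (f : Ω → α) : Lam f ≤ Fintype.card Ω * Real.log (Fintype.card Ω) := by
  unfold Lam
  calc ∑ ω, Real.log (cnt f ω) ≤ ∑ _ω : Ω, Real.log (Fintype.card Ω) := by
        refine sum_le_sum fun ω _ => Real.log_le_log (cnt_pos' f ω) ?_
        exact_mod_cast cnt_le f ω
    _ = _ := by simp

/-- `cnt` as a sum of indicators. -/
theorem cnt_eq_sum (f : Ω → α) (ω : Ω) :
    (cnt f ω : ℝ) = ∑ ω', if f ω' = f ω then (1 : ℝ) else 0 := by
  simp [cnt]

theorem cnt_congr {f : Ω → α} {ω ω' : Ω} (h : f ω = f ω') : cnt f ω = cnt f ω' := by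
  simp [cnt, h]

/-- The sum of `1 / cnt f` over a fibre is at most one. -/
theorem sum_inv_cnt_le (f : Ω → α) (a : α) [∀ ω, Decidable (f ω = a)] :
    ∑ ω, (if f ω = a then (1 : ℝ) / cnt f ω else 0) ≤ 1 := by
  rw [← sum_filter]
  have h : ∀ ω ∈ univ.filter (fun ω => f ω = a), (1 : ℝ) / cnt f ω =
      1 / ((univ.filter fun ω' => f ω' = a).card : ℝ) := by
    intro ω hω
    simp only [mem_filter, mem_univ, true_and] at hω
    simp [cnt, hω]
  rw [sum_congr rfl h, sum_const, nsmul_eq_mul]
  by_cases h0 : (univ.filter fun ω' => f ω' = a).card = 0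
  · simp [h0]
  · have : ((univ.filter fun ω' => f ω' = a).card : ℝ) ≠ 0 := by exact_mod_cast h0
    field_simp
    rfl

/-- If the positive numbers `x ω` have sum at most `|Ω|`, then their logarithms have sum at most
zero. -/
theorem sum_log_nonpos (x : Ω → ℝ) (hx : ∀ ω, 0 < x ω) (h : ∑ ω, x ω ≤ Fintype.card Ω) :
    ∑ ω, Real.log (x ω) ≤ 0 := by
  calc ∑ ω, Real.log (x ω) ≤ ∑ ω, (x ω - 1) :=
        sum_le_sum fun ω _ => Real.log_le_sub_one_of_pos (hx ω)
    _ = ∑ ω, x ω - Fintype.card Ω := by simp [sum_sub_distrib]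
    _ ≤ 0 := by linarith

/-- Recoding by an injective map does not change `Lam`. -/
theorem Lam_comp_inj (f : Ω → α) (h : α → β) (hh : Function.Injective h) :
    Lam (fun ω => h (f ω)) = Lam f := by
  unfold Lam cnt
  simp only [hh.eq_iff]

/-- Precomposition with a permutation does not change `Lam`. -/
theorem Lam_comp_equiv (f : Ω → α) (e : Ω ≃ Ω) : Lam (fun ω => f (e ω)) = Lam f := by
  unfold Lam
  have h : ∀ ω, cnt (fun ω => f (e ω)) ω = cnt f (e ω) := by
    intro ω
    unfold cnt
    refine card_bij (fun a _ => e a) ?_ ?_ ?_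
    · intro a ha
      simpa using ha
    · intro a _ b _ hab
      exact e.injective hab
    · intro b hb
      refine ⟨e.symm b, ?_, by simp⟩
      simpa using hb
  simp only [h]
  exact Equiv.sum_comp e (fun ω => Real.log (cnt f ω))

/-- Adding information decreases `Lam`. -/
theorem Lam_pair_le (f : Ω → α) (g : Ω → β) : Lam (fun ω => (f ω, g ω)) ≤ Lam f := by
  unfold Lam
  refine sum_le_sum fun ω _ => Real.log_le_log (cnt_pos' _ ω) ?_
  norm_cast
  unfold cnt
  refine card_le_card fun a ha => ?_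
  simp only [mem_filter, mem_univ, true_and, Prod.mk.injEq] at ha ⊢
  exact ha.1

/-- Submodularity of entropy. -/
theorem Lam_submodular (A : Ω → α) (B : Ω → β) (J : Ω → γ) :
    Lam (fun ω => (A ω, J ω)) + Lam (fun ω => (B ω, J ω)) ≤
      Lam (fun ω => (A ω, B ω, J ω)) + Lam J := by
  set f1 : Ω → α × γ := fun ω => (A ω, J ω)
  set f2 : Ω → β × γ := fun ω => (B ω, J ω)
  set f3 : Ω → α × β × γ := fun ω => (A ω, B ω, J ω)
  have key : ∑ ω, ((cnt f1 ω : ℝ) * cnt f2 ω / (cnt f3 ω * cnt J ω)) ≤ Fintype.card Ω := by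
    have e1 : ∀ ω, ((cnt f1 ω : ℝ) * cnt f2 ω / (cnt f3 ω * cnt J ω)) =
        ∑ ω1, ∑ ω2, (if J ω2 = J ω1 then (1 : ℝ) / cnt J ω1 else 0) *
          (if f3 ω = (A ω1, B ω2, J ω1) then (1 : ℝ) / cnt f3 ω else 0) := by
      intro ω
      rw [cnt_eq_sum f1, cnt_eq_sum f2, sum_mul_sum, sum_div]
      refine sum_congr rfl fun ω1 _ => ?_
      rw [sum_div]
      refine sum_congr rfl fun ω2 _ => ?_
      by_cases h1 : f1 ω1 = f1 ω
      · by_cases h2 : f2 ω2 = f2 ω
        · have h1' := h1
          have h2' := h2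
          simp only [f1, f2, Prod.mk.injEq] at h1' h2'
          have h3 : J ω2 = J ω1 := by rw [h2'.2, h1'.2]
          have h4 : f3 ω = (A ω1, B ω2, J ω1) := by
            simp only [f3, h1'.1, h1'.2, h2'.1]
          rw [if_pos h1, if_pos h2, if_pos h3, if_pos h4, cnt_congr (f := J) h1'.2]
          have := (cnt_pos' J ω).ne'
          have := (cnt_pos' f3 ω).ne'
          field_simp
        · rw [if_neg h2]
          have h2' : ¬ (J ω2 = J ω1 ∧ f3 ω = (A ω1, B ω2, J ω1)) := by
            rintro ⟨a, b⟩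
            apply h2
            simp only [f3, Prod.mk.injEq] at b
            simp only [f2, Prod.mk.injEq]
            exact ⟨b.2.1.symm, by rw [a, b.2.2]⟩
          by_cases h3 : J ω2 = J ω1
          · have h4 : ¬ (f3 ω = (A ω1, B ω2, J ω1)) := fun h => h2' ⟨h3, h⟩
            rw [if_neg h4]; simp
          · rw [if_neg h3]; simp
      · rw [if_neg h1]
        have h4 : ¬ (f3 ω = (A ω1, B ω2, J ω1)) := by
          intro b
          apply h1
          simp only [f3, Prod.mk.injEq] at b
          simp only [f1, Prod.mk.injEq]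
          exact ⟨b.1.symm, b.2.2.symm⟩
        rw [if_neg h4]; simp
    calc ∑ ω, ((cnt f1 ω : ℝ) * cnt f2 ω / (cnt f3 ω * cnt J ω))
        = ∑ ω, ∑ ω1, ∑ ω2, (if J ω2 = J ω1 then (1 : ℝ) / cnt J ω1 else 0) *
          (if f3 ω = (A ω1, B ω2, J ω1) then (1 : ℝ) / cnt f3 ω else 0) :=
          sum_congr rfl fun ω _ => e1 ω
      _ = ∑ ω1, ∑ ω2, (if J ω2 = J ω1 then (1 : ℝ) / cnt J ω1 else 0) *
          ∑ ω, (if f3 ω = (A ω1, B ω2, J ω1) then (1 : ℝ) / cnt f3 ω else 0) := by
          rw [sum_comm]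
          refine sum_congr rfl fun ω1 _ => ?_
          rw [sum_comm]
          refine sum_congr rfl fun ω2 _ => ?_
          rw [mul_sum]
      _ ≤ ∑ ω1, ∑ ω2, (if J ω2 = J ω1 then (1 : ℝ) / cnt J ω1 else 0) := by
          refine sum_le_sum fun ω1 _ => sum_le_sum fun ω2 _ => ?_
          have h0 : (0 : ℝ) ≤ (if J ω2 = J ω1 then (1 : ℝ) / cnt J ω1 else 0) := by
            split_ifs
            · positivity
            · exact le_rfl
          exact mul_le_of_le_one_right h0 (sum_inv_cnt_le f3 _)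
      _ = ∑ _ω1 : Ω, (1 : ℝ) := by
          refine sum_congr rfl fun ω1 _ => ?_
          rw [← sum_filter, sum_const, nsmul_eq_mul]
          have := (cnt_pos' J ω1).ne'
          change (cnt J ω1 : ℝ) * _ = 1
          field_simp
      _ = Fintype.card Ω := by simp
  have h := sum_log_nonpos _ (fun ω => by
    have := cnt_pos' f1 ω
    have := cnt_pos' f2 ω
    have := cnt_pos' f3 ω
    have := cnt_pos' J ω
    positivity) key
  have e2 : ∀ ω, Real.log ((cnt f1 ω : ℝ) * cnt f2 ω / (cnt f3 ω * cnt J ω)) =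
      Real.log (cnt f1 ω) + Real.log (cnt f2 ω) - (Real.log (cnt f3 ω) + Real.log (cnt J ω)) := by
    intro ω
    have h1 := (cnt_pos' f1 ω).ne'
    have h2 := (cnt_pos' f2 ω).ne'
    have h3 := (cnt_pos' f3 ω).ne'
    have h4 := (cnt_pos' J ω).ne'
    rw [Real.log_div (mul_ne_zero h1 h2) (mul_ne_zero h3 h4), Real.log_mul h1 h2,
      Real.log_mul h3 h4]
  simp only [e2, sum_sub_distrib, sum_add_distrib] at h
  unfold Lam
  linarith

/-- The entropy inequality of Donsker and Varadhan in counting form. -/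
theorem sum_log_le [Fintype γ] (X : Ω → α) (J : Ω → γ) (R : α → γ → ℝ) (hR : ∀ x m, 0 < R x m)
    (T : ℝ) (hT0 : 0 < T) (hT : ∀ x, ∑ m, R x m ≤ T) :
    ∑ ω, Real.log (R (X ω) (J ω)) ≤
      Lam (fun ω => (X ω, J ω)) - Lam X + Fintype.card Ω * Real.log T := by
  set f : Ω → α × γ := fun ω => (X ω, J ω)
  have key : ∑ ω, (R (X ω) (J ω) * cnt X ω / (cnt f ω * T)) ≤ Fintype.card Ω := by
    have e1 : ∀ ω, (R (X ω) (J ω) * cnt X ω / (cnt f ω * T)) =
        ∑ ω1, ∑ m, (R (X ω1) m / T) *
          (if f ω = (X ω1, m) then (1 : ℝ) / cnt f ω else 0) := by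
      intro ω
      rw [cnt_eq_sum X, mul_sum, sum_div]
      refine sum_congr rfl fun ω1 _ => ?_
      by_cases h1 : X ω1 = X ω
      · rw [if_pos h1, sum_eq_single (J ω)]
        · rw [if_pos (by simp [f, h1]), h1]
          have := (cnt_pos' f ω).ne'
          field_simp
        · intro m _ hm
          rw [if_neg, mul_zero]
          simp only [f, Prod.mk.injEq, not_and]
          intro _ h
          exact hm h.symm
        · simp
      · rw [if_neg h1, sum_eq_zero]
        · simp
        · intro m _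
          rw [if_neg, mul_zero]
          simp only [f, Prod.mk.injEq, not_and]
          intro h
          exact absurd h.symm h1
    calc ∑ ω, (R (X ω) (J ω) * cnt X ω / (cnt f ω * T))
        = ∑ ω, ∑ ω1, ∑ m, (R (X ω1) m / T) *
          (if f ω = (X ω1, m) then (1 : ℝ) / cnt f ω else 0) :=
          sum_congr rfl fun ω _ => e1 ω
      _ = ∑ ω1, ∑ m, (R (X ω1) m / T) *
          ∑ ω, (if f ω = (X ω1, m) then (1 : ℝ) / cnt f ω else 0) := by
          rw [sum_comm]
          refine sum_congr rfl fun ω1 _ => ?_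
          rw [sum_comm]
          refine sum_congr rfl fun m _ => ?_
          rw [mul_sum]
      _ ≤ ∑ ω1, ∑ m, (R (X ω1) m / T) := by
          refine sum_le_sum fun ω1 _ => sum_le_sum fun m _ => ?_
          exact mul_le_of_le_one_right (div_nonneg (hR _ _).le hT0.le)
            (sum_inv_cnt_le f _)
      _ ≤ ∑ _ω1 : Ω, (1 : ℝ) := by
          refine sum_le_sum fun ω1 _ => ?_
          rw [← sum_div]
          exact (div_le_one hT0).2 (hT _)
      _ = Fintype.card Ω := by simp
  have h := sum_log_nonpos _ (fun ω => by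
    have := cnt_pos' X ω
    have := cnt_pos' f ω
    have := hR (X ω) (J ω)
    positivity) key
  have e2 : ∀ ω, Real.log (R (X ω) (J ω) * cnt X ω / (cnt f ω * T)) =
      Real.log (R (X ω) (J ω)) + Real.log (cnt X ω) - (Real.log (cnt f ω) + Real.log T) := by
    intro ω
    have h1 := (cnt_pos' X ω).ne'
    have h2 := (cnt_pos' f ω).ne'
    have h3 := (hR (X ω) (J ω)).ne'
    rw [Real.log_div (mul_ne_zero h3 h1) (mul_ne_zero h2 hT0.ne'), Real.log_mul h3 h1,
      Real.log_mul h2 hT0.ne']
  simp only [e2, sum_sub_distrib, sum_add_distrib, sum_const, card_univ, nsmul_eq_mul] at h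
  unfold Lam
  linarith

/-- Gibbs inequality: the entropy of `f` is at most the mean of `- log (q (f ω))` for every
subprobability `q`. -/
theorem entropy_le (f : Ω → α) (q : α → ℝ) (hq : ∀ a, 0 < q a)
    (hs : ∀ s : Finset α, ∑ a ∈ s, q a ≤ 1) [Nonempty Ω] :
    Fintype.card Ω * Real.log (Fintype.card Ω) - Lam f ≤ ∑ ω, - Real.log (q (f ω)) := by
  have hc : (0 : ℝ) < Fintype.card Ω := by exact_mod_cast Fintype.card_pos
  have key : ∑ ω, ((Fintype.card Ω : ℝ) * q (f ω) / cnt f ω) ≤ Fintype.card Ω := by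
    have e1 : ∀ ω, ((Fintype.card Ω : ℝ) * q (f ω) / cnt f ω) =
        ∑ a ∈ univ.image f, (Fintype.card Ω : ℝ) * q a *
          (if f ω = a then (1 : ℝ) / cnt f ω else 0) := by
      intro ω
      rw [sum_eq_single (f ω)]
      · rw [if_pos rfl]; ring
      · intro b _ hb
        rw [if_neg (fun h => hb h.symm), mul_zero]
      · intro h
        exact absurd (mem_image_of_mem f (mem_univ ω)) h
    calc ∑ ω, ((Fintype.card Ω : ℝ) * q (f ω) / cnt f ω)
        = ∑ ω, ∑ a ∈ univ.image f, (Fintype.card Ω : ℝ) * q a *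
          (if f ω = a then (1 : ℝ) / cnt f ω else 0) := sum_congr rfl fun ω _ => e1 ω
      _ = ∑ a ∈ univ.image f, (Fintype.card Ω : ℝ) * q a *
          ∑ ω, (if f ω = a then (1 : ℝ) / cnt f ω else 0) := by
          rw [sum_comm]
          refine sum_congr rfl fun a _ => ?_
          rw [mul_sum]
      _ ≤ ∑ a ∈ univ.image f, (Fintype.card Ω : ℝ) * q a := by
          refine sum_le_sum fun a _ => ?_
          exact mul_le_of_le_one_right (mul_nonneg hc.le (hq a).le) (sum_inv_cnt_le f _)
      _ ≤ Fintype.card Ω := by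
          rw [← mul_sum]
          exact mul_le_of_le_one_right hc.le (hs _)
  have h := sum_log_nonpos _ (fun ω => by
    have := cnt_pos' f ω
    have := hq (f ω)
    positivity) key
  have e2 : ∀ ω, Real.log ((Fintype.card Ω : ℝ) * q (f ω) / cnt f ω) =
      Real.log (Fintype.card Ω) - (- Real.log (q (f ω))) - Real.log (cnt f ω) := by
    intro ω
    have h2 := (cnt_pos' f ω).ne'
    have h3 := (hq (f ω)).ne'
    rw [Real.log_div (mul_ne_zero hc.ne' h3) h2, Real.log_mul hc.ne' h3]
    ring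
  simp only [e2, sum_sub_distrib, sum_const, card_univ, nsmul_eq_mul] at h
  unfold Lam
  linarith

end

end Pool.Agent.Lib.MP_f64c7e_nt
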