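import Pool.Agent.Lib.MP_f64c7e_nt.Count

/-!
For every `ε > 0` and all large `K`, every line with odd parameter meets the graph of `Φ` modulo
`2^K` in at most `exp (ε K)` points.
-/

set_option autoImplicit false

open Finset
open scoped Classical

namespace Pool.Agent.Lib.MP_f64c7e_nt

noncomputable section

/-- `log` is smaller than any linear function, with explicit constants. -/
theorem log_le_linear {x η : ℝ} (hx : 0 < x) (hη : 0 < η) :
    Real.log x ≤ η * x + Real.log (1 / η) := by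
  have h2 : Real.log (η * x) ≤ η * x - 1 := Real.log_le_sub_one_of_pos (by positivity)
  rw [Real.log_mul hη.ne' hx.ne'] at h2
  rw [one_div, Real.log_inv]
  linarith

theorem exists_log_le (c ε : ℝ) (hc : 0 ≤ c) (hε : 0 < ε) (d : ℝ) :
    ∃ K₀ : ℕ, ∀ K : ℕ, K₀ ≤ K →
      c * Real.log (((K : ℝ) + 1) * ((K : ℝ) + 2)) + d ≤ ε * K := by
  set η := ε / (2 * (c + 1)) with hη
  have hη0 : 0 < η := by positivity
  obtain ⟨K₀, hK₀⟩ := exists_nat_ge (2 / ε * (c * η + 2 * c * Real.log (4 / η) + d))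
  refine ⟨K₀, fun K hK => ?_⟩
  have h1 := log_bound hη0 K
  have h2 : (K₀ : ℝ) ≤ K := by exact_mod_cast hK
  have h3 : 2 / ε * (c * η + 2 * c * Real.log (4 / η) + d) ≤ K := hK₀.trans h2
  have h4 : c * η + 2 * c * Real.log (4 / η) + d ≤ ε / 2 * K := by
    have h5 : ε / 2 * (2 / ε * (c * η + 2 * c * Real.log (4 / η) + d)) =
        c * η + 2 * c * Real.log (4 / η) + d := by field_simp
    rw [← h5]
    exact mul_le_mul_of_nonneg_left h3 (by positivity)
  have h6 : c * η ≤ ε / 2 := by
    rw [hη, mul_div_assoc', div_le_iff₀ (by positivity)]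
    nlinarith
  have h7 : c * Real.log (((K : ℝ) + 1) * ((K : ℝ) + 2)) ≤
      c * (η * (K + 1) + 2 * Real.log (4 / η)) := mul_le_mul_of_nonneg_left h1 hc
  have h8 : c * η * K ≤ ε / 2 * K := mul_le_mul_of_nonneg_right h6 (Nat.cast_nonneg K)
  nlinarith

/-- The bound for a family of words with a fixed number of ones. -/
theorem card_family (ε : ℝ) (hε : 0 < ε) : ∃ K₀ : ℕ, ∀ K : ℕ, K₀ ≤ K → ∀ u : ℤ_[2],
    ¬ (2 : ℤ_[2]) ∣ u → ∀ (w : ℕ) (S : Finset (List ℕ)), OnLine u K S →
    (∀ Y ∈ S, Y.length = w) → (S.card : ℝ) ≤ Real.exp (6 * ε * K) := by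
  set A := 2 * Real.log (4 / ε) with hAdef
  have hA := fun g => log_bound hε g
  obtain ⟨C0, hC0⟩ := exists_nat_ge (A / ε)
  set C := C0 + 1 with hCdef
  have hC : A ≤ ε * C := by
    rw [div_le_iff₀ hε] at hC0
    rw [hCdef]; push_cast
    nlinarith
  have hCpos : 0 < C := Nat.succ_pos _
  obtain ⟨L0, hL0⟩ := exists_nat_ge (C * Real.log 2 / ε)
  set L := L0 + 1 with hLdef
  have hL : C * Real.log 2 ≤ ε * L := by
    rw [div_le_iff₀ hε] at hL0
    rw [hLdef]; push_cast
    nlinarith
  have hLpos : 0 < L := Nat.succ_pos _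
  obtain ⟨S0, hS0⟩ := exists_nat_ge (2 / ε)
  set Sm := S0 + 1 with hSdef
  have hSm : 2 ≤ ε * Sm := by
    rw [div_le_iff₀ hε] at hS0
    rw [hSdef]; push_cast
    nlinarith
  have hSpos : 0 < Sm := Nat.succ_pos _
  have hCr : (0 : ℝ) < C := by exact_mod_cast hCpos
  set η := ε / (24 * C) with hη
  have hη0 : 0 < η := by positivity
  obtain ⟨l1, hl1⟩ := exists_nat_ge (2 / ε * (3 * η + 3 * Real.log (1 / η) + Real.log 2))
  set l₀ := l1 + 1 with hl₀def
  have hlog : ∀ l : ℕ, l₀ ≤ l →
      Real.log 2 + 2 * Real.log ((C * l : ℕ) + 1) + Real.log (4 * (C * l : ℕ) + 1) ≤ ε * l := by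
    intro l hl
    have h0 : (0 : ℝ) ≤ ((C * l : ℕ) : ℝ) := Nat.cast_nonneg _
    have h1 : Real.log ((C * l : ℕ) + 1) ≤ Real.log (4 * (C * l : ℕ) + 1) :=
      Real.log_le_log (by positivity) (by linarith)
    have h2 := log_le_linear (x := 4 * (C * l : ℕ) + 1) (by positivity) hη0
    have h3 : η * (4 * ((C * l : ℕ) : ℝ) + 1) = ε / 6 * l + η := by
      rw [hη]; push_cast; field_simp; ring
    have h4 : (l1 : ℝ) ≤ l := by exact_mod_cast (by omega : l1 ≤ l)
    have h5 := hl1.trans h4
    have h6 : 3 * η + 3 * Real.log (1 / η) + Real.log 2 ≤ ε / 2 * l := by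
      have h7 : ε / 2 * (2 / ε * (3 * η + 3 * Real.log (1 / η) + Real.log 2)) =
          3 * η + 3 * Real.log (1 / η) + Real.log 2 := by field_simp
      rw [← h7]
      exact mul_le_mul_of_nonneg_left h5 (by positivity)
    rw [h3] at h2
    linarith
  set lm := L ^ Sm * l₀ with hlm
  set Mx := 2 ^ (C * lm) with hMx
  obtain ⟨K1, hK1⟩ := exists_log_le ((Mx + 2 * lm : ℕ) : ℝ) ε (Nat.cast_nonneg _) hε
    (Real.log (Sm * lm : ℕ))
  obtain ⟨K2, hK2⟩ := exists_nat_ge (|A| * Mx / ε)
  refine ⟨max K1 K2, fun K hK u hu w S hline hlen => ?_⟩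
  have hKr : (0 : ℝ) ≤ K := Nat.cast_nonneg K
  rcases Nat.lt_or_ge w Mx with hw | hw
  · have h1 := card_few hA K w S hline.1 hlen
    refine h1.trans (Real.exp_le_exp.2 ?_)
    have h2 : (K2 : ℝ) ≤ K := by exact_mod_cast (le_max_right K1 K2).trans hK
    have h3 := hK2.trans h2
    rw [div_le_iff₀ hε] at h3
    have h4 : (w : ℝ) ≤ Mx := by exact_mod_cast hw.le
    have h5 : A * w ≤ |A| * Mx := by
      calc A * w ≤ |A| * w := mul_le_mul_of_nonneg_right (le_abs_self A) (Nat.cast_nonneg _)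
        _ ≤ |A| * Mx := mul_le_mul_of_nonneg_left h4 (abs_nonneg _)
    nlinarith [mul_nonneg hε.le hKr]
  · rcases S.eq_empty_or_nonempty with he | hne
    · rw [he]
      simp [Real.exp_nonneg]
    · have h1 := card_many hε hA C L l₀ Sm hC hCpos hLpos hL (Nat.succ_pos _) hSpos hSm hlog u hu
        K w S hne hline hlen hw
      have h2 := hK1 K ((le_max_left K1 K2).trans hK)
      have h3 : (0 : ℝ) < S.card := by exact_mod_cast card_pos.2 hne
      rw [← Real.exp_log h3]
      refine Real.exp_le_exp.2 ?_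
      linarith

theorem exists_gaps (K : ℕ) : ∀ y : ℕ, y < 2 ^ K → ∃ (p : ℕ) (G : List ℕ),
    p + tl G = K ∧ y = 2 ^ p * vl G := by
  induction K with
  | zero =>
    intro y hy
    refine ⟨0, [], rfl, ?_⟩
    simp at hy
    simp [hy]
  | succ K ih =>
    intro y hy
    have h1 : y / 2 < 2 ^ K := by
      rw [pow_succ] at hy; omega
    obtain ⟨p, G, h2, h3⟩ := ih (y / 2) h1
    rcases Nat.even_or_odd' y with ⟨c, hc | hc⟩
    · refine ⟨p + 1, G, by omega, ?_⟩
      have h4 : y / 2 = c := by omega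
      rw [hc, ← h4, h3, pow_succ']
      ring
    · refine ⟨0, p :: G, by simp; omega, ?_⟩
      have h4 : y / 2 = c := by omega
      simp only [pow_zero, one_mul, vl_cons]
      rw [hc, ← h4, h3, pow_succ']
      ring

/-- **Every line with odd parameter contains few points of the graph.** -/
theorem line_count (ε : ℝ) (hε : 0 < ε) : ∃ K₀ : ℕ, ∀ K : ℕ, K₀ ≤ K → ∀ u : ℤ_[2],
    ¬ (2 : ℤ_[2]) ∣ u → ∀ δ : ℤ_[2],
    (((range (2 ^ K)).filter fun y => (2 : ℤ_[2]) ^ K ∣ Dl u y - δ).card : ℝ) ≤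
      Real.exp (ε * K) := by
  obtain ⟨K1, hK1⟩ := card_family (ε / 12) (by positivity)
  obtain ⟨K2, hK2⟩ := exists_log_le 2 (ε / 2) (by norm_num) (by positivity) (K1 * Real.log 2)
  refine ⟨K2, fun K hK u hu δ => ?_⟩
  set T := (range (2 ^ K)).filter fun y => (2 : ℤ_[2]) ^ K ∣ Dl u y - δ with hT
  have hex : ∀ y : ℕ, ∃ q : ℕ × List ℕ, y < 2 ^ K → q.1 + tl q.2 = K ∧ y = 2 ^ q.1 * vl q.2 := by
    intro y
    by_cases hy : y < 2 ^ K
    · obtain ⟨p, G, h⟩ := exists_gaps K y hy
      exact ⟨(p, G), fun _ => h⟩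
    · exact ⟨(0, []), fun h => absurd h hy⟩
  choose q hq using hex
  have hmem : ∀ y ∈ T, (q y).1 + tl (q y).2 = K ∧ y = 2 ^ (q y).1 * vl (q y).2 := by
    intro y hy
    rw [hT, mem_filter, mem_range] at hy
    exact hq y hy.1
  -- one fibre
  have hfib : ∀ pw ∈ (range (K + 1)) ×ˢ (range (K + 1)),
      ((T.filter fun y => ((q y).1, (q y).2.length) = pw).card : ℝ) ≤
        Real.exp (ε / 2 * K + K1 * Real.log 2) := by
    rintro ⟨p, w⟩ hpw
    rw [mem_product, mem_range, mem_range] at hpw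
    set F := T.filter fun y => ((q y).1, (q y).2.length) = (p, w) with hF
    have hFm : ∀ y ∈ F, y ∈ T ∧ (q y).1 = p ∧ (q y).2.length = w := by
      intro y hy
      rw [hF, mem_filter, Prod.mk.injEq] at hy
      exact hy
    set S := F.image fun y => (q y).2 with hS
    have hcard : F.card = S.card := by
      rw [hS, card_image_of_injOn]
      intro y hy y' hy' h
      have h1 := hFm y hy
      have h2 := hFm y' hy'
      rw [(hmem y h1.1).2, (hmem y' h2.1).2, h1.2.1, h2.2.1]
      simp only at h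
      rw [h]
    have hSm : ∀ Y ∈ S, ∃ y ∈ F, (q y).2 = Y := by
      intro Y hY
      rw [hS, mem_image] at hY
      exact hY
    have hline : OnLine u (K - p) S := by
      constructor
      · intro Y hY
        obtain ⟨y, hy, rfl⟩ := hSm Y hY
        have h1 := hFm y hy
        have h2 := (hmem y h1.1).1
        omega
      · intro Y hY Y' hY'
        obtain ⟨y, hy, rfl⟩ := hSm Y hY
        obtain ⟨y', hy', rfl⟩ := hSm Y' hY'
        have h1 := hFm y hy
        have h2 := hFm y' hy'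
        have h3 := h1.1
        have h4 := h2.1
        rw [hT, mem_filter] at h3 h4
        have h5 := dvd_sub h3.2 h4.2
        have h6 : Dl u y - δ - (Dl u y' - δ) = Dl u y - Dl u y' := by ring
        rw [h6, (hmem y h1.1).2, (hmem y' h2.1).2, h1.2.1, h2.2.1] at h5
        have h7 : ∀ v : ℕ, Dl u (2 ^ p * v) = 2 ^ p * Dl u v := by
          intro v
          unfold Dl
          rw [Phi_two_pow_mul]
          push_cast
          ring
        rw [h7, h7, ← mul_sub] at h5
        have h8 : (2 : ℤ_[2]) ^ K = 2 ^ p * 2 ^ (K - p) := by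
          rw [← pow_add]; congr 1; omega
        rw [h8] at h5
        exact (mul_dvd_mul_iff_left (pow_ne_zero _ prime_two.ne_zero)).1 h5
    have hlen : ∀ Y ∈ S, Y.length = w := by
      intro Y hY
      obtain ⟨y, hy, rfl⟩ := hSm Y hY
      exact (hFm y hy).2.2
    rw [hcard]
    have hlog2 : 0 ≤ Real.log 2 := Real.log_nonneg (by norm_num)
    rcases Nat.lt_or_ge (K - p) K1 with h | h
    · have h1 : S.card ≤ 2 ^ (K - p) := by
        have h2 : S.card ≤ (range (2 ^ (K - p))).card := by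
          refine card_le_card_of_injOn vl ?_ ?_
          · intro Y hY
            have := vl_lt Y
            rw [hline.1 Y hY] at this
            simpa using this
          · intro Y hY Y' hY' hv
            exact vl_inj Y Y' (by rw [hlen Y hY, hlen Y' hY']) (by rw [hline.1 Y hY, hline.1 Y' hY'])
              hv
        simpa using h2
      have h2 : (S.card : ℝ) ≤ 2 ^ K1 := by
        have : S.card ≤ 2 ^ K1 := h1.trans (Nat.pow_le_pow_right (by norm_num) h.le)
        exact_mod_cast this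
      have h3 : (2 : ℝ) ^ K1 = Real.exp (K1 * Real.log 2) := by
        rw [← Real.log_pow, Real.exp_log (by positivity)]
      rw [h3] at h2
      refine h2.trans (Real.exp_le_exp.2 ?_)
      have : 0 ≤ ε / 2 * (K : ℝ) := by positivity
      linarith
    · have h1 := hK1 (K - p) h u hu w S hline hlen
      refine h1.trans (Real.exp_le_exp.2 ?_)
      have h2 : ((K - p : ℕ) : ℝ) ≤ K := by exact_mod_cast Nat.sub_le K p
      have h3 : 6 * (ε / 12) * ((K - p : ℕ) : ℝ) ≤ ε / 2 * K := by nlinarith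
      have h4 : 0 ≤ (K1 : ℝ) * Real.log 2 := by positivity
      linarith
  have hsum : (T.card : ℝ) ≤ ((K : ℝ) + 1) ^ 2 * Real.exp (ε / 2 * K + K1 * Real.log 2) := by
    have h1 : T.card = ∑ pw ∈ (range (K + 1)) ×ˢ (range (K + 1)),
        (T.filter fun y => ((q y).1, (q y).2.length) = pw).card := by
      refine card_eq_sum_card_fiberwise (fun y hy => ?_)
      have h2 := (hmem y hy).1
      have h3 := length_le_tl (q y).2
      simp only [coe_product, Set.mem_prod, coe_range, Set.mem_Iio]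
      omega
    rw [h1]
    push_cast
    refine (sum_le_sum hfib).trans ?_
    rw [sum_const, card_product, card_range, nsmul_eq_mul]
    push_cast
    rw [sq]
  refine hsum.trans ?_
  have h1 : ((K : ℝ) + 1) ^ 2 = Real.exp (2 * Real.log ((K : ℝ) + 1)) := by
    rw [← Real.exp_log (show (0 : ℝ) < ((K : ℝ) + 1) ^ 2 by positivity), Real.log_pow]
    norm_num
  rw [h1, ← Real.exp_add]
  refine Real.exp_le_exp.2 ?_
  have h2 := hK2 K hK
  have h3 : Real.log ((K : ℝ) + 1) ≤ Real.log (((K : ℝ) + 1) * ((K : ℝ) + 2)) := by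
    apply Real.log_le_log (by positivity)
    have : (0 : ℝ) ≤ K := Nat.cast_nonneg K
    nlinarith
  linarith

end

end Pool.Agent.Lib.MP_f64c7e_nt
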