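import Pool.Agent.Lib.MP_f64c7e_nt.Phi

/-!
Words as lists of gaps, and the Kraft inequality for a family of words lying on one line.
-/

set_option autoImplicit false

open Finset
open scoped Classical

namespace Pool.Agent.Lib.MP_f64c7e_nt

noncomputable section

/-- The length of the word `1 0^g₀ 1 0^g₁ ...`. -/
def tl : List ℕ → ℕ
  | [] => 0
  | g :: G => g + 1 + tl G

/-- The number with binary digits `1 0^g₀ 1 0^g₁ ...` (lowest digit first). -/
def vl : List ℕ → ℕ
  | [] => 0
  | g :: G => 1 + 2 ^ (g + 1) * vl G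

@[simp] theorem tl_nil : tl [] = 0 := rfl
@[simp] theorem tl_cons (g : ℕ) (G : List ℕ) : tl (g :: G) = g + 1 + tl G := rfl
@[simp] theorem vl_nil : vl [] = 0 := rfl
@[simp] theorem vl_cons (g : ℕ) (G : List ℕ) : vl (g :: G) = 1 + 2 ^ (g + 1) * vl G := rfl

theorem tl_append (A B : List ℕ) : tl (A ++ B) = tl A + tl B := by
  induction A with
  | nil => simp
  | cons g A ih => simp [ih]; ring

theorem length_le_tl (A : List ℕ) : A.length ≤ tl A := by
  induction A with
  | nil => simp
  | cons g A ih => simp; omega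

theorem vl_lt (A : List ℕ) : vl A < 2 ^ tl A := by
  induction A with
  | nil => simp
  | cons g A ih =>
    simp only [vl_cons, tl_cons]
    have h1 : 2 ^ (g + 1 + tl A) = 2 ^ (g + 1) * 2 ^ tl A := pow_add _ _ _
    have h2 : 2 ≤ 2 ^ (g + 1) := by
      calc 2 = 2 ^ 1 := by norm_num
        _ ≤ 2 ^ (g + 1) := Nat.pow_le_pow_right (by norm_num) (by omega)
    rw [h1]
    nlinarith [Nat.mul_le_mul_left (2 ^ (g + 1)) (Nat.succ_le_of_lt ih)]

theorem vl_odd {A : List ℕ} (h : A ≠ []) : vl A % 2 = 1 := by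
  cases A with
  | nil => exact absurd rfl h
  | cons g A =>
    simp only [vl_cons, pow_succ]
    have : 1 + 2 ^ g * 2 * vl A = 1 + 2 * (2 ^ g * vl A) := by ring
    omega

theorem vl_inj : ∀ A B : List ℕ, A.length = B.length → tl A = tl B → vl A = vl B → A = B := by
  intro A
  induction A with
  | nil =>
    intro B h _ _
    exact (List.length_eq_zero_iff.1 h.symm).symm
  | cons g A ih =>
    intro B hlen htl hvl
    cases B with
    | nil => simp at hlen
    | cons h B =>
      simp only [List.length_cons, add_left_inj] at hlen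
      simp only [tl_cons] at htl
      simp only [vl_cons] at hvl
      have h1 : 2 ^ (g + 1) * vl A = 2 ^ (h + 1) * vl B := by omega
      have hgh : g = h := by
        by_cases hA : A = []
        · subst hA
          have hB : B = [] := List.length_eq_zero_iff.1 hlen.symm
          subst hB
          simpa using htl
        · have hB : B ≠ [] := by
            intro hB
            subst hB
            exact hA (List.length_eq_zero_iff.1 hlen)
          have oA := vl_odd hA
          have oB := vl_odd hB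
          rcases lt_trichotomy g h with hlt | heq | hgt
          · exfalso
            have e : 2 ^ (h + 1) = 2 ^ (g + 1) * (2 * 2 ^ (h - g - 1)) := by
              rw [← pow_succ', ← pow_add]; congr 1; omega
            rw [e, mul_assoc] at h1
            have h2 := Nat.eq_of_mul_eq_mul_left (Nat.pow_pos (by norm_num)) h1
            rw [h2, mul_assoc] at oA
            omega
          · exact heq
          · exfalso
            have e : 2 ^ (g + 1) = 2 ^ (h + 1) * (2 * 2 ^ (g - h - 1)) := by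
              rw [← pow_succ', ← pow_add]; congr 1; omega
            rw [e, mul_assoc] at h1
            have h2 := Nat.eq_of_mul_eq_mul_left (Nat.pow_pos (by norm_num)) h1
            rw [← h2, mul_assoc] at oB
            omega
      subst hgh
      have h2 := Nat.eq_of_mul_eq_mul_left (Nat.pow_pos (by norm_num)) h1
      rw [ih B hlen (by omega) h2]

theorem Dl_vl_append (u : ℤ_[2]) (A B : List ℕ) :
    Dl u (vl (A ++ B)) = Dl u (vl A) + 2 ^ tl A * Dl (u * th ^ A.length) (vl B) := by
  have h1 : ∀ A : List ℕ, vl (A ++ B) = vl A + 2 ^ tl A * vl B := by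
    intro A
    induction A with
    | nil => simp
    | cons g A ih => simp [ih]; ring
  have h2 : ∀ A : List ℕ, Phi (vl (A ++ B)) = Phi (vl A) + 2 ^ tl A * th ^ A.length * Phi (vl B) := by
    intro A
    induction A with
    | nil => simp [Phi_zero]
    | cons g A ih =>
      have h3 : ∀ x : ℕ, Phi (1 + 2 ^ (g + 1) * x) = th * (2 ^ (g + 1) * Phi x - 1) := by
        intro x
        have : 1 + 2 ^ (g + 1) * x = 2 * (2 ^ g * x) + 1 := by ring
        rw [this, Phi_odd, Phi_two_pow_mul]
        ring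
      simp only [List.cons_append, vl_cons, tl_cons, List.length_cons, h3, ih]
      ring
  unfold Dl
  rw [h2, h1]
  push_cast
  ring

/-- The weight `∏ 1 / ((g+1)(g+2))`. -/
def chp : List ℕ → ℝ
  | [] => 1
  | g :: G => 1 / (((g : ℝ) + 1) * ((g : ℝ) + 2)) * chp G

theorem chp_pos (A : List ℕ) : 0 < chp A := by
  induction A with
  | nil => simp [chp]
  | cons g A ih => unfold chp; positivity

theorem sum_tele (s : Finset ℕ) : ∑ a ∈ s, ((1 : ℝ) / (((a : ℝ) + 1) * ((a : ℝ) + 2))) ≤ 1 := by
  have hsum : ∀ n : ℕ, ∑ a ∈ range n, ((1 : ℝ) / (((a : ℝ) + 1) * ((a : ℝ) + 2))) =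
      1 - 1 / ((n : ℝ) + 1) := by
    intro n
    induction n with
    | zero => simp
    | succ n ih =>
      rw [sum_range_succ, ih]
      push_cast
      have h1 : (n : ℝ) + 1 ≠ 0 := by positivity
      have h2 : (n : ℝ) + 2 ≠ 0 := by positivity
      have h3 : (n : ℝ) + 1 + 1 ≠ 0 := by positivity
      field_simp
      ring
  obtain ⟨n, hn⟩ := s.exists_nat_subset_range
  calc ∑ a ∈ s, ((1 : ℝ) / (((a : ℝ) + 1) * ((a : ℝ) + 2)))
      ≤ ∑ a ∈ range n, ((1 : ℝ) / (((a : ℝ) + 1) * ((a : ℝ) + 2))) :=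
        sum_le_sum_of_subset_of_nonneg hn (fun _ _ _ => by positivity)
    _ = 1 - 1 / ((n : ℝ) + 1) := hsum n
    _ ≤ 1 := by
        have : (0 : ℝ) ≤ 1 / ((n : ℝ) + 1) := by positivity
        linarith

/-- The words of `S` that begin with the block `B`, with this block removed. -/
def sub (S : Finset (List ℕ)) (l : ℕ) (B : List ℕ) : Finset (List ℕ) :=
  (S.filter fun Y => Y.take l = B).image fun Y => Y.drop l

theorem kraft_step (S : Finset (List ℕ)) (l : ℕ) (a : List ℕ → ℝ) (b : List ℕ → List ℕ → ℝ)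
    (ha : ∀ B, 0 ≤ a B) (hb : ∀ B ∈ S.image fun Y => Y.take l, ∑ Z ∈ sub S l B, b B Z ≤ 1)
    (hsum : ∑ B ∈ S.image fun Y => Y.take l, a B ≤ 1) :
    ∑ Y ∈ S, a (Y.take l) * b (Y.take l) (Y.drop l) ≤ 1 := by
  have h1 : ∑ Y ∈ S, a (Y.take l) * b (Y.take l) (Y.drop l) =
      ∑ B ∈ S.image fun Y => Y.take l, a B * ∑ Z ∈ sub S l B, b B Z := by
    rw [← sum_fiberwise_of_maps_to (g := fun Y => Y.take l) (t := S.image fun Y => Y.take l)
      (fun Y hY => mem_image_of_mem _ hY)]
    refine sum_congr rfl fun B _ => ?_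
    unfold sub
    rw [sum_image, mul_sum]
    · refine sum_congr rfl fun Y hY => ?_
      rw [mem_filter] at hY
      rw [hY.2]
    · intro Y hY Y' hY' h
      simp only [coe_filter, Set.mem_ofPred_eq] at hY hY'
      rw [← List.take_append_drop l Y, ← List.take_append_drop l Y', hY.2, hY'.2]
      simp only at h
      rw [h]
  rw [h1]
  calc ∑ B ∈ S.image fun Y => Y.take l, a B * ∑ Z ∈ sub S l B, b B Z
      ≤ ∑ B ∈ S.image fun Y => Y.take l, a B :=
        sum_le_sum fun B hB => mul_le_of_le_one_right (ha B) (hb B hB)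
    _ ≤ 1 := hsum

theorem sum_chp (l : ℕ) : ∀ S : Finset (List ℕ), (∀ Y ∈ S, Y.length = l) →
    ∑ Y ∈ S, chp Y ≤ 1 := by
  induction l with
  | zero =>
    intro S hS
    have h1 : S ⊆ {[]} := by
      intro Y hY
      rw [mem_singleton]
      exact List.length_eq_zero_iff.1 (hS Y hY)
    calc ∑ Y ∈ S, chp Y ≤ ∑ Y ∈ {[]}, chp Y :=
          sum_le_sum_of_subset_of_nonneg h1 (fun Y _ _ => (chp_pos Y).le)
      _ = 1 := by simp [chp]
  | succ l ih =>
    intro S hS
    have h1 : ∀ Y ∈ S, chp Y = chp (Y.take 1) * chp (Y.drop 1) := by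
      intro Y hY
      have h2 := hS Y hY
      cases Y with
      | nil => simp at h2
      | cons g G => simp [chp]
    rw [sum_congr rfl h1]
    refine kraft_step S 1 chp (fun _ Z => chp Z) (fun B => (chp_pos B).le) ?_ ?_
    · intro B _
      apply ih
      intro Z hZ
      unfold sub at hZ
      rw [mem_image] at hZ
      obtain ⟨Y, hY, rfl⟩ := hZ
      rw [mem_filter] at hY
      have := hS Y hY.1
      simp [this]
    · -- blocks of length one
      have h2 : ∀ B ∈ S.image fun Y => Y.take 1, ∃ g, B = [g] := by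
        intro B hB
        rw [mem_image] at hB
        obtain ⟨Y, hY, rfl⟩ := hB
        have h3 := hS Y hY
        cases Y with
        | nil => simp at h3
        | cons g G => exact ⟨g, by simp⟩
      have h3 : S.image (fun Y => Y.take 1) =
          (S.image fun Y => Y.headI).image fun g => [g] := by
        ext B
        simp only [mem_image, exists_exists_and_eq_and]
        constructor
        · rintro ⟨Y, hY, rfl⟩
          refine ⟨Y, hY, ?_⟩
          have h3 := hS Y hY
          cases Y with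
          | nil => simp at h3
          | cons g G => simp
        · rintro ⟨Y, hY, rfl⟩
          refine ⟨Y, hY, ?_⟩
          have h3 := hS Y hY
          cases Y with
          | nil => simp at h3
          | cons g G => simp
      rw [h3, sum_image (by intro a _ b _ h; simpa using h)]
      simp only [chp, mul_one]
      exact sum_tele _

/-- The words of `S` have length `K` and lie on one line with parameter `u`. -/
def OnLine (u : ℤ_[2]) (K : ℕ) (S : Finset (List ℕ)) : Prop :=
  (∀ Y ∈ S, tl Y = K) ∧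
    ∀ Y ∈ S, ∀ Y' ∈ S, (2 : ℤ_[2]) ^ K ∣ Dl u (vl Y) - Dl u (vl Y')

theorem OnLine.sub {u : ℤ_[2]} {K : ℕ} {S : Finset (List ℕ)} (h : OnLine u K S) (l : ℕ)
    (hl : ∀ Y ∈ S, l ≤ Y.length) (B : List ℕ) (hB : B ∈ S.image fun Y => Y.take l) :
    OnLine (u * th ^ l) (K - tl B) (MP_f64c7e_nt.sub S l B) := by
  have hmem : ∀ Z ∈ MP_f64c7e_nt.sub S l B, B ++ Z ∈ S := by
    intro Z hZ
    unfold MP_f64c7e_nt.sub at hZ
    rw [mem_image] at hZ
    obtain ⟨Y, hY, rfl⟩ := hZ
    rw [mem_filter] at hY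
    rw [← hY.2, List.take_append_drop]
    exact hY.1
  have hBl : B.length = l := by
    rw [mem_image] at hB
    obtain ⟨Y, hY, rfl⟩ := hB
    have := hl Y hY
    simp [this]
  refine ⟨fun Z hZ => ?_, fun Z hZ Z' hZ' => ?_⟩
  · have h1 := h.1 _ (hmem Z hZ)
    rw [tl_append] at h1
    omega
  · have h1 := h.2 _ (hmem Z hZ) _ (hmem Z' hZ')
    have h2 := h.1 _ (hmem Z hZ)
    rw [tl_append] at h2
    rw [Dl_vl_append, Dl_vl_append, hBl] at h1
    have h3 : Dl u (vl B) + 2 ^ tl B * Dl (u * th ^ l) (vl Z) -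
        (Dl u (vl B) + 2 ^ tl B * Dl (u * th ^ l) (vl Z')) =
        2 ^ tl B * (Dl (u * th ^ l) (vl Z) - Dl (u * th ^ l) (vl Z')) := by ring
    rw [h3] at h1
    have h4 : (2 : ℤ_[2]) ^ K = 2 ^ tl B * 2 ^ (K - tl B) := by
      rw [← pow_add]; congr 1; omega
    rw [h4] at h1
    exact (mul_dvd_mul_iff_left (pow_ne_zero _ prime_two.ne_zero)).1 h1

theorem Rc_eq_of_dvd {t : ℕ} {u : ℤ_[2]} {x x' : ℕ} (h : (2 : ℤ_[2]) ^ t ∣ Dl u x - Dl u x') :
    Rc t u x = Rc t u x' := by
  unfold Rc
  congr 1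
  refine filter_congr fun y _ => ?_
  have h1 : Dl u y - Dl u x' = Dl u y - Dl u x + (Dl u x - Dl u x') := by ring
  rw [h1]
  exact (dvd_add_left h).symm

/-- The weight of a block. -/
def qb (N : ℕ) (u : ℤ_[2]) (B : List ℕ) : ℝ :=
  if tl B ≤ N then 1 / 2 * (1 / ((tl B : ℝ) * (tl B + 1))) * (1 / Rc (tl B) u (vl B))
  else 1 / 2 * chp B

theorem qb_pos (N : ℕ) (u : ℤ_[2]) {B : List ℕ} (hB : B ≠ []) : 0 < qb N u B := by
  unfold qb
  split_ifs
  · have h1 : 0 < tl B := lt_of_lt_of_le (List.length_pos_iff.2 hB) (length_le_tl B)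
    have h2 : (0 : ℝ) < tl B := by exact_mod_cast h1
    have h3 : (0 : ℝ) < Rc (tl B) u (vl B) := by exact_mod_cast Rc_pos (vl_lt B)
    positivity
  · have := chp_pos B
    positivity

theorem qb_nonneg (N : ℕ) (u : ℤ_[2]) (B : List ℕ) : 0 ≤ qb N u B := by
  unfold qb
  split_ifs
  · positivity
  · have := chp_pos B
    positivity

theorem sum_qb (N : ℕ) {u : ℤ_[2]} {K : ℕ} {S : Finset (List ℕ)} (h : OnLine u K S) (l : ℕ)
    (hl : ∀ Y ∈ S, l ≤ Y.length) :
    ∑ B ∈ S.image fun Y => Y.take l, qb N u B ≤ 1 := by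
  set F := S.image fun Y => Y.take l with hF
  have hlen : ∀ B ∈ F, B.length = l := by
    intro B hB
    rw [hF, mem_image] at hB
    obtain ⟨Y, hY, rfl⟩ := hB
    have := hl Y hY
    simp [this]
  -- blocks of one length are on one line
  have hline : ∀ B ∈ F, ∀ B' ∈ F, tl B = tl B' →
      (2 : ℤ_[2]) ^ tl B ∣ Dl u (vl B) - Dl u (vl B') := by
    intro B hB B' hB' htt
    rw [hF, mem_image] at hB hB'
    obtain ⟨Y, hY, rfl⟩ := hB
    obtain ⟨Y', hY', rfl⟩ := hB'
    have h1 := h.2 Y hY Y' hY'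
    have h2 := h.1 Y hY
    rw [← List.take_append_drop l Y, tl_append] at h2
    have h3 : (2 : ℤ_[2]) ^ tl (Y.take l) ∣ Dl u (vl Y) - Dl u (vl Y') :=
      dvd_trans (pow_dvd_pow 2 (by omega)) h1
    rw [← List.take_append_drop l Y, ← List.take_append_drop l Y', Dl_vl_append,
      Dl_vl_append, ← htt] at h3
    set a := Dl (u * th ^ (Y.take l).length) (vl (Y.drop l))
    set b := Dl (u * th ^ (Y'.take l).length) (vl (Y'.drop l))
    simp only [List.take_append_drop] at h3
    have h4 : Dl u (vl (Y.take l)) - Dl u (vl (Y'.take l)) =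
        (Dl u (vl (Y.take l)) + 2 ^ tl (Y.take l) * a -
          (Dl u (vl (Y'.take l)) + 2 ^ tl (Y.take l) * b)) - 2 ^ tl (Y.take l) * (a - b) := by ring
    rw [h4]
    exact dvd_sub h3 (dvd_mul_right _ _)
  have hclass : ∀ t, ∑ B ∈ F.filter (fun B => tl B = t), (1 : ℝ) / Rc (tl B) u (vl B) ≤ 1 := by
    intro t
    rcases (F.filter (fun B => tl B = t)).eq_empty_or_nonempty with he | ⟨B0, hB0⟩
    · rw [he]; simp
    · have hB0' := hB0
      rw [mem_filter] at hB0'
      have h1 : ∀ B ∈ F.filter (fun B => tl B = t), (1 : ℝ) / Rc (tl B) u (vl B) =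
          1 / Rc t u (vl B0) := by
        intro B hB
        rw [mem_filter] at hB
        have h2 := hline B hB.1 B0 hB0'.1 (by rw [hB.2, hB0'.2])
        rw [Rc_eq_of_dvd h2, hB.2]
      rw [sum_congr rfl h1, sum_const, nsmul_eq_mul]
      have h3 : (F.filter (fun B => tl B = t)).card ≤ Rc t u (vl B0) := by
        unfold Rc
        refine card_le_card_of_injOn vl ?_ ?_
        · intro B hB
          simp only [coe_filter, Set.mem_ofPred_eq] at hB
          simp only [coe_filter, Set.mem_ofPred_eq, mem_range]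
          have h2 := hline B hB.1 B0 hB0'.1 (by rw [hB.2, hB0'.2])
          rw [hB.2] at h2
          refine ⟨?_, h2⟩
          have := vl_lt B
          rwa [hB.2] at this
        · intro B hB B' hB' hv
          simp only [coe_filter, Set.mem_ofPred_eq] at hB hB'
          exact vl_inj B B' (by rw [hlen B hB.1, hlen B' hB'.1]) (by rw [hB.2, hB'.2]) hv
      have h4 : (0 : ℝ) < Rc t u (vl B0) := by
        have : 0 < (F.filter (fun B => tl B = t)).card := card_pos.2 ⟨B0, hB0⟩
        exact_mod_cast lt_of_lt_of_le this h3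
      rw [mul_one_div, div_le_one h4]
      exact_mod_cast h3
  rw [← sum_filter_add_sum_filter_not F (fun B => tl B ≤ N)]
  have hA : ∑ B ∈ F.filter (fun B => tl B ≤ N), qb N u B ≤ 1 / 2 := by
    have h1 : ∑ B ∈ F.filter (fun B => tl B ≤ N), qb N u B =
        ∑ t ∈ range (N + 1), 1 / 2 * (1 / ((t : ℝ) * (t + 1))) *
          ∑ B ∈ F.filter (fun B => tl B = t), (1 : ℝ) / Rc (tl B) u (vl B) := by
      rw [← sum_fiberwise_of_maps_to (g := fun B => tl B) (t := range (N + 1))
        (s := F.filter (fun B => tl B ≤ N))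
        (fun B hB => by rw [mem_filter] at hB; rw [mem_range]; omega)]
      refine sum_congr rfl fun t ht => ?_
      rw [mem_range] at ht
      have h2 : (F.filter (fun B => tl B ≤ N)).filter (fun B => tl B = t) =
          F.filter (fun B => tl B = t) := by
        ext B
        simp only [mem_filter]
        constructor
        · rintro ⟨⟨a, b⟩, c⟩; exact ⟨a, c⟩
        · rintro ⟨a, c⟩; exact ⟨⟨a, by omega⟩, c⟩
      rw [h2, mul_sum]
      refine sum_congr rfl fun B hB => ?_
      rw [mem_filter] at hB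
      unfold qb
      rw [if_pos (by omega), hB.2]
    rw [h1]
    calc ∑ t ∈ range (N + 1), 1 / 2 * (1 / ((t : ℝ) * (t + 1))) *
          ∑ B ∈ F.filter (fun B => tl B = t), (1 : ℝ) / Rc (tl B) u (vl B)
        ≤ ∑ t ∈ range (N + 1), 1 / 2 * (1 / ((t : ℝ) * (t + 1))) := by
          refine sum_le_sum fun t _ => ?_
          exact mul_le_of_le_one_right (by positivity) (hclass t)
      _ = 1 / 2 * ∑ t ∈ range (N + 1), (1 / ((t : ℝ) * (t + 1))) := by rw [mul_sum]
      _ ≤ 1 / 2 * 1 := by
          refine mul_le_mul_of_nonneg_left ?_ (by norm_num)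
          rw [sum_range_succ']
          have h2 : ∑ k ∈ range N, (1 : ℝ) / (((k + 1 : ℕ) : ℝ) * (((k + 1 : ℕ) : ℝ) + 1)) =
              ∑ a ∈ range N, ((1 : ℝ) / (((a : ℝ) + 1) * ((a : ℝ) + 2))) := by
            refine sum_congr rfl fun k _ => ?_
            push_cast
            ring_nf
          rw [h2]
          simpa using sum_tele (range N)
      _ = 1 / 2 := by ring
  have hB : ∑ B ∈ F.filter (fun B => ¬ tl B ≤ N), qb N u B ≤ 1 / 2 := by
    have h1 : ∀ B ∈ F.filter (fun B => ¬ tl B ≤ N), qb N u B = 1 / 2 * chp B := by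
      intro B hB
      rw [mem_filter] at hB
      unfold qb
      rw [if_neg hB.2]
    rw [sum_congr rfl h1, ← mul_sum]
    have h2 := sum_chp l (F.filter (fun B => ¬ tl B ≤ N)) (fun B hB => by
      rw [mem_filter] at hB; exact hlen B hB.1)
    linarith
  linarith

/-- The weight of `n` consecutive blocks of length `l`, followed by single gaps. -/
def Wb (N l : ℕ) : ℕ → ℤ_[2] → List ℕ → ℝ
  | 0, _, Y => chp Y
  | n + 1, u, Y => qb N u (Y.take l) * Wb N l n (u * th ^ l) (Y.drop l)

/-- The weight of `r` single gaps, `n` blocks of length `l`, and single gaps. -/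
def Wt (N l n r : ℕ) (u : ℤ_[2]) (Y : List ℕ) : ℝ :=
  chp (Y.take r) * Wb N l n (u * th ^ r) (Y.drop r)

theorem kraft_b (N l : ℕ) (n : ℕ) : ∀ (u : ℤ_[2]) (K w : ℕ) (S : Finset (List ℕ)),
    OnLine u K S → (∀ Y ∈ S, Y.length = w) → n * l ≤ w → ∑ Y ∈ S, Wb N l n u Y ≤ 1 := by
  induction n with
  | zero =>
    intro u K w S _ hS _
    exact sum_chp w S hS
  | succ n ih =>
    intro u K w S hline hS hw
    have hlw : l ≤ w := by nlinarith
    have hl : ∀ Y ∈ S, l ≤ Y.length := fun Y hY => by rw [hS Y hY]; exact hlw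
    refine kraft_step S l (qb N u) (fun _ Z => Wb N l n (u * th ^ l) Z) (qb_nonneg N u) ?_
      (sum_qb N hline l hl)
    intro B hB
    refine ih _ (K - tl B) (w - l) _ (hline.sub l hl B hB) ?_ ?_
    · intro Z hZ
      unfold sub at hZ
      rw [mem_image] at hZ
      obtain ⟨Y, hY, rfl⟩ := hZ
      rw [mem_filter] at hY
      simp [hS Y hY.1]
    · have : (n + 1) * l = n * l + l := by ring
      omega

theorem kraft_t (N l n r : ℕ) (u : ℤ_[2]) (K w : ℕ) (S : Finset (List ℕ))
    (hline : OnLine u K S) (hS : ∀ Y ∈ S, Y.length = w) (hw : r + n * l ≤ w) :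
    ∑ Y ∈ S, Wt N l n r u Y ≤ 1 := by
  have hl : ∀ Y ∈ S, r ≤ Y.length := fun Y hY => by rw [hS Y hY]; omega
  refine kraft_step S r chp (fun _ Z => Wb N l n (u * th ^ r) Z) (fun B => (chp_pos B).le) ?_ ?_
  · intro B hB
    refine kraft_b N l n _ (K - tl B) (w - r) _ (hline.sub r hl B hB) ?_ (by omega)
    intro Z hZ
    unfold sub at hZ
    rw [mem_image] at hZ
    obtain ⟨Y, hY, rfl⟩ := hZ
    rw [mem_filter] at hY
    simp [hS Y hY.1]
  · apply sum_chp r
    intro B hB
    rw [mem_image] at hB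
    obtain ⟨Y, hY, rfl⟩ := hB
    have := hl Y hY
    simp [this]

/-- The cost of the block of length `l` starting at the gap number `j`. -/
def cost (N l : ℕ) (u : ℤ_[2]) (Y : List ℕ) (j : ℕ) : ℝ :=
  - Real.log (qb N (u * th ^ j) ((Y.drop j).take l))

theorem Wb_pos (N l : ℕ) (hl : 0 < l) (n : ℕ) : ∀ (u : ℤ_[2]) (Y : List ℕ), n * l ≤ Y.length →
    0 < Wb N l n u Y := by
  induction n with
  | zero => intro u Y _; exact chp_pos Y
  | succ n ih =>
    intro u Y hY
    have h1 : (n + 1) * l = n * l + l := by ring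
    refine mul_pos (qb_pos N u ?_) (ih _ _ ?_)
    · intro h
      have h2 := congrArg List.length h
      rw [List.length_take, List.length_nil] at h2
      omega
    · simp; omega

theorem log_Wb (N l : ℕ) (hl : 0 < l) (n : ℕ) : ∀ (u : ℤ_[2]) (Y : List ℕ), n * l ≤ Y.length →
    - Real.log (Wb N l n u Y) = ∑ b ∈ range n, cost N l u Y (b * l) -
      Real.log (chp (Y.drop (n * l))) := by
  induction n with
  | zero => intro u Y _; simp [Wb]
  | succ n ih =>
    intro u Y hY
    have h1 : (n + 1) * l = n * l + l := by ring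
    have h3 : Y.take l ≠ [] := by
      intro h
      have h2 := congrArg List.length h
      rw [List.length_take, List.length_nil] at h2
      omega
    have h4 : n * l ≤ (Y.drop l).length := by simp; omega
    show - Real.log (qb N u (Y.take l) * Wb N l n (u * th ^ l) (Y.drop l)) = _
    rw [Real.log_mul (qb_pos N u h3).ne' (Wb_pos N l hl n _ _ h4).ne', neg_add, ih _ _ h4,
      sum_range_succ']
    have h5 : ∀ b ∈ range n, cost N l (u * th ^ l) (Y.drop l) (b * l) =
        cost N l u Y ((b + 1) * l) := by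
      intro b _
      unfold cost
      rw [List.drop_drop, mul_assoc, ← pow_add]
      have : (b + 1) * l = l + b * l := by ring
      rw [this]
    rw [sum_congr rfl h5, List.drop_drop]
    have h6 : cost N l u Y (0 * l) = - Real.log (qb N u (Y.take l)) := by
      simp [cost]
    have h7 : l + n * l = (n + 1) * l := by ring
    rw [h6, h7]
    ring

theorem log_Wt (N l : ℕ) (hl : 0 < l) (n r : ℕ) (u : ℤ_[2]) (Y : List ℕ)
    (h : r + n * l ≤ Y.length) :
    - Real.log (Wt N l n r u Y) = ∑ b ∈ range n, cost N l u Y (r + b * l) -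
      Real.log (chp (Y.take r)) - Real.log (chp (Y.drop (r + n * l))) := by
  have h4 : n * l ≤ (Y.drop r).length := by simp; omega
  unfold Wt
  rw [Real.log_mul (chp_pos _).ne' (Wb_pos N l hl n _ _ h4).ne', neg_add, log_Wb N l hl n _ _ h4,
    List.drop_drop]
  have h5 : ∀ b ∈ range n, cost N l (u * th ^ r) (Y.drop r) (b * l) =
      cost N l u Y (r + b * l) := by
    intro b _
    unfold cost
    rw [List.drop_drop, mul_assoc, ← pow_add]
  rw [sum_congr rfl h5]
  ring

theorem Wt_pos (N l : ℕ) (hl : 0 < l) (n r : ℕ) (u : ℤ_[2]) (Y : List ℕ)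
    (h : r + n * l ≤ Y.length) : 0 < Wt N l n r u Y := by
  have h4 : n * l ≤ (Y.drop r).length := by simp; omega
  exact mul_pos (chp_pos _) (Wb_pos N l hl n _ _ h4)

/-- A point at which finitely many weights are simultaneously small. -/
theorem exists_small {ι : Type*} (S : Finset (List ℕ)) (hS : S.Nonempty) (I : Finset ι)
    (W : ι → List ℕ → ℝ) (hW : ∀ i ∈ I, ∑ Y ∈ S, W i Y ≤ 1) (hI : I.Nonempty)
    (hpos : ∀ i ∈ I, ∀ Y ∈ S, 0 < W i Y) :
    ∃ Y ∈ S, ∀ i ∈ I, Real.log S.card - Real.log I.card ≤ - Real.log (W i Y) := by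
  have hSc : (0 : ℝ) < S.card := by exact_mod_cast card_pos.2 hS
  have hIc : (0 : ℝ) < I.card := by exact_mod_cast card_pos.2 hI
  have h1 : ∃ Y ∈ S, ∀ i ∈ I, W i Y ≤ I.card / S.card := by
    by_contra hcon
    push Not at hcon
    have h2 : ∀ Y ∈ S, (I.card : ℝ) / S.card < ∑ i ∈ I, W i Y := by
      intro Y hY
      obtain ⟨i, hi, hlt⟩ := hcon Y hY
      exact lt_of_lt_of_le hlt (single_le_sum (f := fun i => W i Y)
        (fun i hi => (hpos i hi Y hY).le) hi)
    have h3 := sum_lt_sum_of_nonempty hS h2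
    rw [sum_const, nsmul_eq_mul, sum_comm] at h3
    have h4 : ∑ i ∈ I, ∑ Y ∈ S, W i Y ≤ ∑ _i ∈ I, (1 : ℝ) := sum_le_sum hW
    rw [sum_const, nsmul_eq_mul, mul_one] at h4
    have h5 : (S.card : ℝ) * (I.card / S.card) = I.card := by field_simp
    linarith
  obtain ⟨Y, hY, h⟩ := h1
  refine ⟨Y, hY, fun i hi => ?_⟩
  have h2 := Real.log_le_log (hpos i hi Y hY) (h i hi)
  rw [Real.log_div hIc.ne' hSc.ne'] at h2
  linarith

end

end Pool.Agent.Lib.MP_f64c7e_nt
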