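import Pool.Agent.Lib.MP_f64c7e_nt.Final

/-!
The 3x+1 conjugacy map `Φ` on the 2-adic integers, and its lines modulo powers of two.
-/

set_option autoImplicit false

open Finset
open scoped Classical

namespace Pool.Agent.Lib.MP_f64c7e_nt

noncomputable section

/-- The number with the first `n` binary digits of `x`. -/
def A (n : ℕ) (x : ℤ_[2]) : ℕ := (PadicInt.toZModPow n x).val

theorem A_lt (n : ℕ) (x : ℤ_[2]) : A n x < 2 ^ n := by
  have : NeZero (2 ^ n) := ⟨by positivity⟩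
  exact ZMod.val_lt _

theorem toZModPow_eq_zero_iff (n : ℕ) (y : ℤ_[2]) :
    PadicInt.toZModPow n y = 0 ↔ (2 : ℤ_[2]) ^ n ∣ y := by
  rw [← RingHom.mem_ker, PadicInt.ker_toZModPow, Ideal.mem_span_singleton]
  norm_num

theorem dvd_sub_A (n : ℕ) (x : ℤ_[2]) : (2 : ℤ_[2]) ^ n ∣ x - (A n x : ℤ_[2]) := by
  have : NeZero (2 ^ n) := ⟨by positivity⟩
  rw [← toZModPow_eq_zero_iff, map_sub, map_natCast]
  unfold A
  rw [ZMod.natCast_zmod_val, sub_self]

theorem natCast_dvd_iff (n a b : ℕ) :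
    (2 : ℤ_[2]) ^ n ∣ (a : ℤ_[2]) - (b : ℤ_[2]) ↔ a % 2 ^ n = b % 2 ^ n := by
  have h3 := two_pow_dvd_int n ((a : ℤ) - b)
  push_cast at h3
  rw [h3]
  have h4 : (2 : ℤ) ^ n ∣ (a : ℤ) - b ↔ b ≡ a [MOD 2 ^ n] := by
    rw [Nat.modEq_iff_dvd]; push_cast; rfl
  rw [h4]
  exact ⟨fun h => h.symm, fun h => h.symm⟩

theorem A_mod {k n : ℕ} (h : k ≤ n) (x : ℤ_[2]) : A n x % 2 ^ k = A k x := by
  have h1 := dvd_trans (pow_dvd_pow (2 : ℤ_[2]) h) (dvd_sub_A n x)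
  have h2 := dvd_sub_A k x
  have h3 : (2 : ℤ_[2]) ^ k ∣ (A n x : ℤ_[2]) - (A k x : ℤ_[2]) := by
    have := dvd_sub h2 h1
    have e : x - (A k x : ℤ_[2]) - (x - (A n x : ℤ_[2])) = (A n x : ℤ_[2]) - (A k x : ℤ_[2]) := by
      ring
    rwa [e] at this
  rw [natCast_dvd_iff] at h3
  rw [h3, Nat.mod_eq_of_lt (A_lt k x)]

/-- The digit of `x` at `2^k`. -/
def bit (x : ℤ_[2]) (k : ℕ) : ℕ := (PadicInt.toZModPow (k + 1) x).val / 2 ^ k

/-- The number of digits `1` of `x` below `2^k`. -/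
def ones (x : ℤ_[2]) (k : ℕ) : ℕ := ∑ i ∈ range k, bit x i

theorem bit_eq {k n : ℕ} (h : k < n) (x : ℤ_[2]) : bit x k = A n x / 2 ^ k % 2 := by
  have h1 : A n x % 2 ^ (k + 1) = A (k + 1) x := A_mod (by omega) x
  have h2 : bit x k = A (k + 1) x / 2 ^ k := rfl
  rw [h2, ← h1, pow_succ, Nat.mod_mul_right_div_self]

theorem Phi_eq_sum (n : ℕ) : ∀ a : ℕ, a < 2 ^ n → Phi a =
    -∑ k ∈ range n, ((a / 2 ^ k % 2 : ℕ) : ℤ_[2]) * 2 ^ k *
      th ^ (∑ i ∈ range (k + 1), a / 2 ^ i % 2) := by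
  induction n with
  | zero =>
    intro a ha
    have : a = 0 := by simpa using ha
    subst this
    simp [Phi_zero]
  | succ n ih =>
    intro a ha
    have hdiv : ∀ k, a / 2 ^ (k + 1) % 2 = (a / 2) / 2 ^ k % 2 := by
      intro k
      rw [pow_succ', Nat.div_div_eq_div_mul]
    have hsum : ∀ k, ∑ i ∈ range (k + 1 + 1), a / 2 ^ i % 2 =
        a % 2 + ∑ i ∈ range (k + 1), (a / 2) / 2 ^ i % 2 := by
      intro k
      rw [sum_range_succ', add_comm]
      simp only [pow_zero, Nat.div_one]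
      congr 1
      exact sum_congr rfl fun i _ => hdiv i
    have h1 := ih (a / 2) (by omega)
    rw [sum_range_succ']
    have h2 : ∑ k ∈ range n, ((a / 2 ^ (k + 1) % 2 : ℕ) : ℤ_[2]) * 2 ^ (k + 1) *
        th ^ (∑ i ∈ range (k + 1 + 1), a / 2 ^ i % 2) =
        th ^ (a % 2) * 2 * ∑ k ∈ range n, (((a / 2) / 2 ^ k % 2 : ℕ) : ℤ_[2]) * 2 ^ k *
        th ^ (∑ i ∈ range (k + 1), (a / 2) / 2 ^ i % 2) := by
      rw [mul_sum]
      refine sum_congr rfl fun k _ => ?_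
      rw [hdiv, hsum, pow_add, pow_succ]
      ring
    have h3 : ∑ k ∈ range n, (((a / 2) / 2 ^ k % 2 : ℕ) : ℤ_[2]) * 2 ^ k *
        th ^ (∑ i ∈ range (k + 1), (a / 2) / 2 ^ i % 2) = - Phi (a / 2) := by
      rw [h1, neg_neg]
    rw [h2, h3]
    simp only [zero_add, range_one, sum_singleton, pow_zero, Nat.div_one, mul_one]
    rcases Nat.even_or_odd' a with ⟨b, hb | hb⟩
    · have e1 : a % 2 = 0 := by omega
      have e2 : a / 2 = b := by omega
      rw [e1, e2, hb, Phi_even]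
      simp
    · have e1 : a % 2 = 1 := by omega
      have e2 : a / 2 = b := by omega
      rw [e1, e2, hb, Phi_odd]
      simp
      ring

/-- The terms of the series of `Φ x`. -/
def term (x : ℤ_[2]) (k : ℕ) : ℤ_[2] := (bit x k : ℤ_[2]) * 2 ^ k * th ^ (ones x (k + 1))

theorem summable_aux (f : ℕ → ℤ_[2]) : Summable fun k : ℕ => (2 : ℤ_[2]) ^ k * f k := by
  refine Summable.of_norm_bounded (g := fun k => ((1 : ℝ) / 2) ^ k) summable_geometric_two ?_
  intro k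
  rw [norm_mul, norm_pow]
  have h1 : ‖(2 : ℤ_[2])‖ = 1 / 2 := by
    have := PadicInt.norm_p (p := 2)
    rw [one_div]
    exact_mod_cast this
  rw [h1]
  have h2 := PadicInt.norm_le_one (f k)
  have h3 : (0 : ℝ) ≤ (1 / 2 : ℝ) ^ k := by positivity
  nlinarith

theorem summable_term (x : ℤ_[2]) : Summable (term x) := by
  have := summable_aux (fun k => (bit x k : ℤ_[2]) * th ^ (ones x (k + 1)))
  refine this.congr fun k => ?_
  unfold term
  ring

theorem dvd_Phi (x : ℤ_[2]) (n : ℕ) :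
    (2 : ℤ_[2]) ^ n ∣ (-∑' k, term x k) - Phi (A n x) := by
  have h1 := (summable_term x).sum_add_tsum_nat_add n
  have h2 : Phi (A n x) = -∑ k ∈ range n, term x k := by
    rw [Phi_eq_sum n _ (A_lt n x)]
    congr 1
    refine sum_congr rfl fun k hk => ?_
    rw [mem_range] at hk
    unfold term ones
    rw [bit_eq hk]
    congr 2
    refine sum_congr rfl fun i hi => ?_
    rw [mem_range] at hi
    rw [bit_eq (by omega : i < n)]
  have h3 : ∑' k, term x (k + n) =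
      2 ^ n * ∑' k, (2 : ℤ_[2]) ^ k * ((bit x (k + n) : ℤ_[2]) * th ^ (ones x (k + n + 1))) := by
    rw [← (summable_aux (fun k => (bit x (k + n) : ℤ_[2]) *
      th ^ (ones x (k + n + 1)))).tsum_mul_left]
    refine tsum_congr fun k => ?_
    unfold term
    rw [pow_add]
    ring
  rw [h2, ← h1, h3]
  refine ⟨-∑' k, (2 : ℤ_[2]) ^ k * ((bit x (k + n) : ℤ_[2]) * th ^ (ones x (k + n + 1))), ?_⟩
  ring

theorem inverse_three : Ring.inverse (3 : ℤ_[2]) = th := by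
  have h : IsUnit (3 : ℤ_[2]) := IsUnit.of_mul_eq_one _ three_mul_th
  have h1 := Ring.mul_inverse_cancel _ h
  calc Ring.inverse (3 : ℤ_[2]) = (3 * th) * Ring.inverse 3 := by rw [three_mul_th, one_mul]
    _ = th * (3 * Ring.inverse 3) := by ring
    _ = th := by rw [h1, mul_one]

theorem not_two_dvd_iff_isUnit (a : ℤ_[2]) : ¬ (2 : ℤ_[2]) ∣ a ↔ IsUnit a := by
  have h := PadicInt.isUnit_iff (z := a)
  have h1 := PadicInt.norm_lt_one_iff_dvd (p := 2) a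
  have h2 := PadicInt.norm_le_one a
  rw [h]
  have h3 : (2 : ℤ_[2]) ∣ a ↔ ‖a‖ < 1 := by
    rw [h1]; norm_num
  rw [h3]
  constructor
  · intro h4; exact le_antisymm h2 (not_lt.1 h4)
  · intro h4; rw [h4]; exact lt_irrefl 1

/-- Injectivity of the linear form when exactly one coefficient is odd. -/
theorem inj_of_one_even {n : ℕ} {α β : ℤ_[2]}
    (h : (¬ (2 : ℤ_[2]) ∣ α ∧ (2 : ℤ_[2]) ∣ β) ∨ ((2 : ℤ_[2]) ∣ α ∧ ¬ (2 : ℤ_[2]) ∣ β)) {a b : ℕ}
    (ha : a < 2 ^ n) (hb : b < 2 ^ n)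
    (hab : (2 : ℤ_[2]) ^ n ∣ (α * a + β * Phi a) - (α * b + β * Phi b)) : a = b := by
  have key : ∀ c, c ≤ n → (2 : ℤ_[2]) ^ c ∣ (a : ℤ_[2]) - b := by
    intro c
    induction c with
    | zero => intro _; simp
    | succ c ih =>
      intro hc
      have h1 := ih (by omega)
      have h2 := (Phi_iso c a b).2 h1
      have h3 : (2 : ℤ_[2]) ^ (c + 1) ∣ α * ((a : ℤ_[2]) - b) + β * (Phi a - Phi b) := by
        have e : α * ((a : ℤ_[2]) - b) + β * (Phi a - Phi b) =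
          (α * a + β * Phi a) - (α * b + β * Phi b) := by ring
        rw [e]
        exact dvd_trans (pow_dvd_pow _ hc) hab
      rcases h with ⟨h4, h5⟩ | ⟨h4, h5⟩
      · have h6 : (2 : ℤ_[2]) ^ (c + 1) ∣ β * (Phi a - Phi b) := by
          rw [pow_succ']; exact mul_dvd_mul h5 h2
        have h7 := (dvd_add_left h6).1 h3
        exact prime_two.pow_dvd_of_dvd_mul_left _ h4 h7
      · have h6 : (2 : ℤ_[2]) ^ (c + 1) ∣ α * ((a : ℤ_[2]) - b) := by
          rw [pow_succ']; exact mul_dvd_mul h4 h1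
        have h7 := (dvd_add_right h6).1 h3
        exact (Phi_iso _ a b).1 (prime_two.pow_dvd_of_dvd_mul_left _ h5 h7)
  have h1 := (natCast_dvd_iff n a b).1 (key n le_rfl)
  rwa [Nat.mod_eq_of_lt ha, Nat.mod_eq_of_lt hb] at h1

/-- All lines meet the graph of `Φ` modulo `2^n` in few points. -/
theorem all_lines (ε : ℝ) (hε : 0 < ε) : ∃ N : ℕ, ∀ n ≥ N, ∀ α β γ : ℤ_[2],
    (¬ (2 : ℤ_[2]) ∣ α ∨ ¬ (2 : ℤ_[2]) ∣ β) →
    (((range (2 ^ n)).filter fun a => (2 : ℤ_[2]) ^ n ∣ α * a + β * Phi a - γ).card : ℝ) ≤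
      Real.exp (ε * n) := by
  obtain ⟨N, hN⟩ := line_count ε hε
  refine ⟨N, fun n hn α β γ h => ?_⟩
  by_cases h1 : ¬ (2 : ℤ_[2]) ∣ α ∧ ¬ (2 : ℤ_[2]) ∣ β
  · obtain ⟨α', hα'⟩ := (not_two_dvd_iff_isUnit α).1 h1.1
    set v : ℤ_[2] := ((α'⁻¹ : (ℤ_[2])ˣ) : ℤ_[2]) with hv
    have hαv : α * v = 1 := by rw [← hα', hv]; exact Units.mul_inv α'
    have hvo : ¬ (2 : ℤ_[2]) ∣ v := by
      rw [not_two_dvd_iff_isUnit, hv]; exact Units.isUnit _
    have hu : ¬ (2 : ℤ_[2]) ∣ -(v * β) := by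
      rw [dvd_neg]
      exact not_two_dvd_mul hvo h1.2
    refine le_trans ?_ (hN n hn (-(v * β)) hu (v * γ))
    norm_cast
    refine card_le_card (fun a ha => ?_)
    rw [mem_filter] at ha ⊢
    refine ⟨ha.1, ?_⟩
    have h2 := dvd_mul_of_dvd_right ha.2 v
    have h3 : v * (α * a + β * Phi a - γ) = Dl (-(v * β)) a - v * γ := by
      unfold Dl
      linear_combination (a : ℤ_[2]) * hαv
    rwa [h3] at h2
  · have h2 : (¬ (2 : ℤ_[2]) ∣ α ∧ (2 : ℤ_[2]) ∣ β) ∨ ((2 : ℤ_[2]) ∣ α ∧ ¬ (2 : ℤ_[2]) ∣ β) := by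
      tauto
    have h3 : ((range (2 ^ n)).filter fun a => (2 : ℤ_[2]) ^ n ∣ α * a + β * Phi a - γ).card ≤ 1 := by
      rw [card_le_one]
      intro a ha b hb
      rw [mem_filter, mem_range] at ha hb
      refine inj_of_one_even h2 ha.1 hb.1 ?_
      have := dvd_sub ha.2 hb.2
      have e : α * (a : ℤ_[2]) + β * Phi a - γ - (α * b + β * Phi b - γ) =
        (α * a + β * Phi a) - (α * b + β * Phi b) := by ring
      rwa [e] at this
    have h4 : (1 : ℝ) ≤ Real.exp (ε * n) := Real.one_le_exp (by positivity)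
    refine le_trans ?_ h4
    exact_mod_cast h3

end

end Pool.Agent.Lib.MP_f64c7e_nt
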