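import Mathlib

/-!
The 3x+1 conjugacy map `Φ` on the natural numbers, with values in the 2-adic integers, its isometry
property, and the average number of points of its graph on the lines through a given point.
-/

set_option autoImplicit false

open Finset
open scoped Classical

namespace Pool.Agent.Lib.MP_f64c7e_nt

noncomputable section

/-- The inverse of `3` in the ring of 2-adic integers. -/
def th : ℤ_[2] := PadicInt.inv 3

theorem three_mul_th : (3 : ℤ_[2]) * th = 1 := by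
  apply PadicInt.mul_inv
  have h : ‖((3 : ℕ) : ℤ_[2])‖ = 1 := PadicInt.norm_natCast_eq_one_iff.2 (by decide)
  exact_mod_cast h

theorem prime_two : Prime (2 : ℤ_[2]) := by
  have := PadicInt.prime_p (p := 2)
  exact_mod_cast this

theorem two_pow_dvd_int (n : ℕ) (a : ℤ) : (2 : ℤ_[2]) ^ n ∣ (a : ℤ_[2]) ↔ (2 : ℤ) ^ n ∣ a := by
  have := PadicInt.pow_p_dvd_int_iff (p := 2) n a
  exact_mod_cast this

theorem not_two_dvd_th : ¬ (2 : ℤ_[2]) ∣ th := by
  intro h
  have h1 : (2 : ℤ_[2]) ∣ 3 * th := dvd_mul_of_dvd_right h 3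
  rw [three_mul_th] at h1
  exact prime_two.not_isUnit (isUnit_of_dvd_one h1)

theorem not_two_dvd_th_pow (n : ℕ) : ¬ (2 : ℤ_[2]) ∣ th ^ n :=
  fun h => not_two_dvd_th (prime_two.dvd_of_dvd_pow h)

theorem not_two_dvd_mul {a b : ℤ_[2]} (ha : ¬ (2 : ℤ_[2]) ∣ a) (hb : ¬ (2 : ℤ_[2]) ∣ b) :
    ¬ (2 : ℤ_[2]) ∣ a * b := by
  intro h
  rcases prime_two.dvd_or_dvd h with h | h
  · exact ha h
  · exact hb h

/-- The conjugacy map on natural numbers. -/
def Phi (n : ℕ) : ℤ_[2] :=
  if h : n = 0 then 0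
  else if n % 2 = 0 then 2 * Phi (n / 2) else th * (2 * Phi (n / 2) - 1)
termination_by n
decreasing_by all_goals omega

theorem Phi_zero : Phi 0 = 0 := by rw [Phi]; simp

theorem Phi_even (a : ℕ) : Phi (2 * a) = 2 * Phi a := by
  rcases Nat.eq_zero_or_pos a with h | h
  · subst h; simp [Phi_zero]
  · rw [Phi, dif_neg (by omega), if_pos (by omega)]
    congr 2
    omega

theorem Phi_odd (a : ℕ) : Phi (2 * a + 1) = th * (2 * Phi a - 1) := by
  rw [Phi, dif_neg (by omega), if_neg (by omega)]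
  have : (2 * a + 1) / 2 = a := by omega
  rw [this]

theorem Phi_two_pow_mul (k a : ℕ) : Phi (2 ^ k * a) = 2 ^ k * Phi a := by
  induction k with
  | zero => simp
  | succ k ih => rw [pow_succ', mul_assoc, Phi_even, ih, pow_succ', mul_assoc]

/-- `Φ` is an isometry. -/
theorem Phi_iso (b : ℕ) : ∀ a a' : ℕ, (2 : ℤ_[2]) ^ b ∣ Phi a - Phi a' ↔
    (2 : ℤ_[2]) ^ b ∣ (a : ℤ_[2]) - (a' : ℤ_[2]) := by
  induction b with
  | zero => intro a a'; simp
  | succ b ih =>
    intro a a'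
    have h2 : (2 : ℤ_[2]) ≠ 0 := prime_two.ne_zero
    have hodd : ∀ x : ℤ_[2], ¬ (2 : ℤ_[2]) ^ (b + 1) ∣ 2 * x + th := by
      intro x h
      have h1 : (2 : ℤ_[2]) ∣ 2 * x + th := dvd_trans (dvd_pow_self 2 (by omega)) h
      exact not_two_dvd_th ((dvd_add_right (dvd_mul_right 2 x)).1 h1)
    have hodd1 : ∀ x : ℤ_[2], ¬ (2 : ℤ_[2]) ^ (b + 1) ∣ 2 * x + 1 := by
      intro x h
      have h1 : (2 : ℤ_[2]) ∣ 2 * x + 1 := dvd_trans (dvd_pow_self 2 (by omega)) h
      exact prime_two.not_isUnit (isUnit_of_dvd_one ((dvd_add_right (dvd_mul_right 2 x)).1 h1))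
    rcases Nat.even_or_odd' a with ⟨c, hc | hc⟩ <;> rcases Nat.even_or_odd' a' with ⟨c', hc' | hc'⟩
    · subst hc; subst hc'
      rw [Phi_even, Phi_even]
      push_cast
      rw [← mul_sub, ← mul_sub, pow_succ', mul_dvd_mul_iff_left h2, mul_dvd_mul_iff_left h2]
      exact ih c c'
    · subst hc; subst hc'
      rw [Phi_even, Phi_odd]
      push_cast
      constructor
      · intro h
        exfalso
        apply hodd (Phi c - th * Phi c')
        have : 2 * (Phi c - th * Phi c') + th = 2 * Phi c - th * (2 * Phi c' - 1) := by ring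
        rw [this]; exact h
      · intro h
        exfalso
        apply hodd1 ((c : ℤ_[2]) - c' - 1)
        have : 2 * ((c : ℤ_[2]) - c' - 1) + 1 = 2 * (c : ℤ_[2]) - (2 * c' + 1) := by ring
        rw [this]; exact h
    · subst hc; subst hc'
      rw [Phi_even, Phi_odd]
      push_cast
      constructor
      · intro h
        exfalso
        apply hodd (Phi c' - th * Phi c)
        have : 2 * (Phi c' - th * Phi c) + th = -(th * (2 * Phi c - 1) - 2 * Phi c') := by ring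
        rw [this]; exact (dvd_neg).2 h
      · intro h
        exfalso
        apply hodd1 ((c : ℤ_[2]) - c')
        have : 2 * ((c : ℤ_[2]) - c') + 1 = 2 * (c : ℤ_[2]) + 1 - 2 * c' := by ring
        rw [this]; exact h
    · subst hc; subst hc'
      rw [Phi_odd, Phi_odd]
      push_cast
      have e1 : th * (2 * Phi c - 1) - th * (2 * Phi c' - 1) = 2 * (th * (Phi c - Phi c')) := by
        ring
      have e2 : 2 * (c : ℤ_[2]) + 1 - (2 * c' + 1) = 2 * ((c : ℤ_[2]) - c') := by ring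
      rw [e1, e2, pow_succ', mul_dvd_mul_iff_left h2, mul_dvd_mul_iff_left h2, ← ih c c']
      constructor
      · intro h
        have h3 : (2 : ℤ_[2]) ^ b ∣ 3 * (th * (Phi c - Phi c')) := dvd_mul_of_dvd_right h 3
        rwa [← mul_assoc, three_mul_th, one_mul] at h3
      · intro h
        exact dvd_mul_of_dvd_right h th

/-- The linear form `a - u Φ(a)`. -/
def Dl (u : ℤ_[2]) (a : ℕ) : ℤ_[2] := (a : ℤ_[2]) - u * Phi a

/-- The number of `y < 2^t` on the line with parameter `u` through the point of the graph over `x`,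
modulo `2^t`. -/
def Rc (t : ℕ) (u : ℤ_[2]) (x : ℕ) : ℕ :=
  ((range (2 ^ t)).filter fun y => (2 : ℤ_[2]) ^ t ∣ Dl u y - Dl u x).card

theorem Rc_pos {t : ℕ} {u : ℤ_[2]} {x : ℕ} (hx : x < 2 ^ t) : 0 < Rc t u x :=
  card_pos.2 ⟨x, by simp [hx]⟩

theorem two_pow_dvd_three_pow_sub_one (k : ℕ) : (2 : ℤ) ^ (k + 1) ∣ 3 ^ (2 ^ k) - 1 := by
  induction k with
  | zero => norm_num
  | succ k ih =>
    have h1 : (3 : ℤ) ^ (2 ^ (k + 1)) - 1 = (3 ^ (2 ^ k) - 1) * (3 ^ (2 ^ k) + 1) := by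
      rw [pow_succ 2 k, pow_mul]; ring
    rw [h1, pow_succ]
    refine mul_dvd_mul ih ?_
    have h2 : (2 : ℤ) ∣ 3 ^ (2 ^ k) - 1 := dvd_trans (dvd_pow_self 2 (by omega)) ih
    have h3 : (3 : ℤ) ^ (2 ^ k) + 1 = (3 ^ (2 ^ k) - 1) + 2 := by ring
    rw [h3]
    exact dvd_add h2 (dvd_refl 2)

theorem two_pow_dvd_of_three_pow (e : ℕ) : ∀ k : ℕ, (2 : ℤ) ^ (e + 2) ∣ 3 ^ k - 1 → 2 ^ e ∣ k := by
  induction e with
  | zero => intro k _; simp
  | succ e ih =>
    intro k h
    have h8 : (8 : ℤ) ∣ 3 ^ k - 1 := by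
      refine dvd_trans ?_ h
      have : (8 : ℤ) = 2 ^ 3 := by norm_num
      rw [this]
      exact pow_dvd_pow 2 (by omega)
    -- powers of three modulo 8
    have hmod : ∀ j : ℕ, (3 : ℤ) ^ (2 * j) % 8 = 1 := by
      intro j
      induction j with
      | zero => norm_num
      | succ j ihj =>
        have : (3 : ℤ) ^ (2 * (j + 1)) = 3 ^ (2 * j) * 9 := by ring
        rw [this]; omega
    have heven : Even k := by
      by_contra hne
      rw [Nat.not_even_iff_odd] at hne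
      obtain ⟨j, hj⟩ := hne
      have h1 := hmod j
      rw [hj, pow_succ] at h8
      omega
    obtain ⟨j, hj⟩ := heven
    have hk : k = 2 * j := by omega
    subst hk
    have hfac : (3 : ℤ) ^ (2 * j) - 1 = (3 ^ j - 1) * (3 ^ j + 1) := by
      rw [two_mul, pow_add]; ring
    rcases Nat.even_or_odd' j with ⟨i, hi | hi⟩
    · -- `3^j + 1` is `2` modulo `8`
      have h1 := hmod i
      rw [← hi] at h1
      obtain ⟨c, hc⟩ : ∃ c : ℤ, (3 : ℤ) ^ j + 1 = 2 * c ∧ ¬ (2 : ℤ) ∣ c := by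
        refine ⟨((3 : ℤ) ^ j + 1) / 2, ?_, ?_⟩ <;> omega
      rw [hfac, hc.1] at h
      have h2 : (2 : ℤ) ^ (e + 1 + 2) ∣ 2 * ((3 ^ j - 1) * c) := by
        have : (3 ^ j - 1) * (2 * c) = 2 * ((3 ^ j - 1) * c) := by ring
        rwa [this] at h
      have h3 : (2 : ℤ) ^ (e + 2) ∣ (3 ^ j - 1) * c := by
        have : (2 : ℤ) ^ (e + 1 + 2) = 2 * 2 ^ (e + 2) := by ring
        rw [this] at h2
        exact (mul_dvd_mul_iff_left (by norm_num)).1 h2
      have h4 : (2 : ℤ) ^ (e + 2) ∣ 3 ^ j - 1 :=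
        Int.prime_two.pow_dvd_of_dvd_mul_right _ hc.2 h3
      have h5 := ih j h4
      rw [pow_succ']
      exact mul_dvd_mul_left 2 h5
    · -- `j` odd: the product is `8` times an odd number
      have h1 := hmod i
      have h2 : (3 : ℤ) ^ j = 3 ^ (2 * i) * 3 := by rw [hi, pow_succ]
      obtain ⟨c, hc⟩ : ∃ c : ℤ, (3 : ℤ) ^ j - 1 = 2 * c ∧ ¬ (2 : ℤ) ∣ c := by
        refine ⟨((3 : ℤ) ^ j - 1) / 2, ?_, ?_⟩ <;> omega
      obtain ⟨d, hd⟩ : ∃ d : ℤ, (3 : ℤ) ^ j + 1 = 4 * d ∧ ¬ (2 : ℤ) ∣ d := by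
        refine ⟨((3 : ℤ) ^ j + 1) / 4, ?_, ?_⟩ <;> omega
      rw [hfac, hc.1, hd.1] at h
      have h3 : (2 : ℤ) ^ (e + 1 + 2) = 8 * 2 ^ e := by ring
      have h4 : 2 * c * (4 * d) = 8 * (c * d) := by ring
      rw [h3, h4, mul_dvd_mul_iff_left (by norm_num)] at h
      rcases Nat.eq_zero_or_pos e with he | he
      · subst he; simp
      · exfalso
        have h5 : (2 : ℤ) ∣ c * d := dvd_trans (dvd_pow_self 2 (by omega)) h
        rcases Int.prime_two.dvd_or_dvd h5 with h6 | h6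
        · exact hc.2 h6
        · exact hd.2 h6

theorem th_pow_congr {t M : ℕ} (hM : 2 ^ t ∣ M) (m j : ℕ) :
    (2 : ℤ_[2]) ^ t ∣ th ^ (m + M * j) - th ^ m := by
  have h1 : (2 : ℤ) ^ t ∣ 3 ^ (M * j) - 1 := by
    obtain ⟨c, hc⟩ := hM
    have h2 : (2 : ℤ) ^ t ∣ 3 ^ (2 ^ t) - 1 :=
      dvd_trans (pow_dvd_pow 2 (Nat.le_succ t)) (two_pow_dvd_three_pow_sub_one t)
    refine dvd_trans h2 ?_
    rw [hc, mul_assoc, pow_mul]
    exact sub_one_dvd_pow_sub_one _ _
  have h3 : (2 : ℤ_[2]) ^ t ∣ ((3 ^ (M * j) - 1 : ℤ) : ℤ_[2]) := (two_pow_dvd_int _ _).2 h1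
  push_cast at h3
  have h4 : th ^ (m + M * j) - th ^ m = -(th ^ (m + M * j)) * (3 ^ (M * j) - 1) := by
    have h5 : (3 : ℤ_[2]) ^ (M * j) * th ^ (M * j) = 1 := by
      rw [← mul_pow, three_mul_th, one_pow]
    have h6 : th ^ (m + M * j) * 3 ^ (M * j) = th ^ m := by
      rw [pow_add, mul_assoc, mul_comm (th ^ (M * j)), h5, mul_one]
    linear_combination h6
  rw [h4]
  exact dvd_mul_of_dvd_right h3 _

theorem Rc_congr {t M : ℕ} (hM : 2 ^ t ∣ M) (u : ℤ_[2]) (m x : ℕ) :
    Rc t (u * th ^ m) x = Rc t (u * th ^ (m % M)) x := by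
  unfold Rc
  congr 1
  refine filter_congr fun y _ => ?_
  have h1 := th_pow_congr hM (m % M) (m / M)
  rw [Nat.mod_add_div] at h1
  have h2 : Dl (u * th ^ m) y - Dl (u * th ^ m) x =
      Dl (u * th ^ (m % M)) y - Dl (u * th ^ (m % M)) x -
        (th ^ m - th ^ (m % M)) * (u * (Phi y - Phi x)) := by
    unfold Dl; ring
  rw [h2]
  exact (dvd_sub_left (dvd_mul_of_dvd_left h1 _))

/-- A set of numbers below `M` that are congruent modulo the divisor `q` of `M`. -/
theorem card_le_of_congr {M q : ℕ} (hqM : q ∣ M) (A : Finset ℕ)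
    (hA : ∀ a ∈ A, a < M) (hc : ∀ a ∈ A, ∀ b ∈ A, a % q = b % q) : A.card ≤ M / q := by
  have h1 : A.card ≤ (range (M / q)).card := by
    refine card_le_card_of_injOn (fun a => a / q) ?_ ?_
    · intro a ha
      have := hA a ha
      simp only [coe_range, Set.mem_Iio]
      exact Nat.div_lt_div_of_lt_of_dvd hqM this
    · intro a ha b hb hab
      have h2 := hc a ha b hb
      have h3 : a / q = b / q := hab
      rw [← Nat.mod_add_div a q, ← Nat.mod_add_div b q, h2, h3]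
  simpa using h1

/-- The number of directions `m < M` for which the line through `x` with parameter `u th^m` passes
through `y`. -/
theorem card_dir_le {t M x y b : ℕ} (hM : 2 ^ t ∣ M) (u : ℤ_[2]) (hu : ¬ (2 : ℤ_[2]) ∣ u)
    (hb : b < t) (hxy : ¬ (2 : ℤ_[2]) ^ (b + 1) ∣ (y : ℤ_[2]) - x) :
    ((range M).filter fun m =>
      (2 : ℤ_[2]) ^ t ∣ Dl (u * th ^ m) y - Dl (u * th ^ m) x).card * 2 ^ t ≤ 4 * M * 2 ^ b := by
  set A := (range M).filter fun m =>
      (2 : ℤ_[2]) ^ t ∣ Dl (u * th ^ m) y - Dl (u * th ^ m) x with hAdef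
  set q := 2 ^ (t - b - 2) with hq
  have hqpos : 0 < q := Nat.pow_pos (by norm_num)
  have hqM : q ∣ M := dvd_trans (pow_dvd_pow 2 (by omega)) hM
  have key : ∀ m ∈ A, ∀ m' ∈ A, m ≤ m' → q ∣ m' - m := by
    intro m hm m' hm' hle
    rw [hAdef, mem_filter] at hm hm'
    have h1 : (2 : ℤ_[2]) ^ t ∣ (u * (th ^ m - th ^ m')) * (Phi y - Phi x) := by
      have h2 := dvd_sub hm'.2 hm.2
      have h3 : Dl (u * th ^ m') y - Dl (u * th ^ m') x - (Dl (u * th ^ m) y - Dl (u * th ^ m) x) =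
          (u * (th ^ m - th ^ m')) * (Phi y - Phi x) := by unfold Dl; ring
      rwa [h3] at h2
    have hP : ¬ (2 : ℤ_[2]) ^ (b + 1) ∣ Phi y - Phi x := fun h => hxy ((Phi_iso _ _ _).1 h)
    have h4 : (2 : ℤ_[2]) ^ (t - b) ∣ u * (th ^ m - th ^ m') := by
      -- write `Phi y - Phi x = 2^c * d` with `d` odd and `c ≤ b`
      have hne : Phi y - Phi x ≠ 0 := fun h => hP (by rw [h]; exact dvd_zero _)
      obtain ⟨c, d, hd, hcd⟩ := WfDvdMonoid.max_power_factor hne prime_two.irreducible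
      have hcb : c ≤ b := by
        by_contra hcon
        apply hP
        rw [hcd]
        exact dvd_mul_of_dvd_left (pow_dvd_pow 2 (by omega)) _
      rw [hcd] at h1
      have h5 : (2 : ℤ_[2]) ^ c * 2 ^ (t - c) ∣ 2 ^ c * ((u * (th ^ m - th ^ m')) * d) := by
        have e1 : (2 : ℤ_[2]) ^ c * 2 ^ (t - c) = 2 ^ t := by rw [← pow_add]; congr 1; omega
        have e2 : (2 : ℤ_[2]) ^ c * ((u * (th ^ m - th ^ m')) * d) =
          u * (th ^ m - th ^ m') * (2 ^ c * d) := by ring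
        rw [e1, e2]; exact h1
      have h6 := (mul_dvd_mul_iff_left (pow_ne_zero c prime_two.ne_zero)).1 h5
      have h7 := prime_two.pow_dvd_of_dvd_mul_right _ hd h6
      exact dvd_trans (pow_dvd_pow 2 (by omega)) h7
    have h5 : (2 : ℤ_[2]) ^ (t - b) ∣ th ^ m - th ^ m' :=
      prime_two.pow_dvd_of_dvd_mul_left _ hu h4
    have h6 : (2 : ℤ_[2]) ^ (t - b) ∣ ((3 ^ (m' - m) - 1 : ℤ) : ℤ_[2]) := by
      push_cast
      have h7 : (3 : ℤ_[2]) ^ m' * (th ^ m - th ^ m') = 3 ^ (m' - m) - 1 := by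
        have h8 : (3 : ℤ_[2]) ^ m' * th ^ m' = 1 := by rw [← mul_pow, three_mul_th, one_pow]
        have h9 : (3 : ℤ_[2]) ^ m * th ^ m = 1 := by rw [← mul_pow, three_mul_th, one_pow]
        have h10 : (3 : ℤ_[2]) ^ m' = 3 ^ (m' - m) * 3 ^ m := by rw [← pow_add]; congr 1; omega
        calc (3 : ℤ_[2]) ^ m' * (th ^ m - th ^ m') = 3 ^ m' * th ^ m - 3 ^ m' * th ^ m' := by ring
          _ = 3 ^ (m' - m) * (3 ^ m * th ^ m) - 1 := by rw [h8, h10]; ring
          _ = _ := by rw [h9]; ring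
      rw [← h7]
      exact dvd_mul_of_dvd_right h5 _
    have h7 := (two_pow_dvd_int _ _).1 h6
    rcases Nat.lt_or_ge (t - b) 2 with h8 | h8
    · have : t - b - 2 = 0 := by omega
      rw [hq, this]; simp
    · apply two_pow_dvd_of_three_pow
      have : t - b - 2 + 2 = t - b := by omega
      rw [this]; exact h7
  have hcard : A.card ≤ M / q := by
    refine card_le_of_congr hqM A (fun a ha => ?_) (fun a ha a' ha' => ?_)
    · rw [hAdef, mem_filter, mem_range] at ha; exact ha.1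
    · rcases le_total a a' with h | h
      · exact ((Nat.modEq_iff_dvd' h).2 (key a ha a' ha' h))
      · exact ((Nat.modEq_iff_dvd' h).2 (key a' ha' a ha h)).symm
  have h9 : 2 ^ t ≤ 4 * q * 2 ^ b := by
    have : 4 * q * 2 ^ b = 2 ^ (2 + (t - b - 2) + b) := by
      rw [pow_add, pow_add, hq]; norm_num
    rw [this]
    exact Nat.pow_le_pow_right (by norm_num) (by omega)
  calc A.card * 2 ^ t ≤ (M / q) * (4 * q * 2 ^ b) := Nat.mul_le_mul hcard h9
    _ = 4 * (M / q * q) * 2 ^ b := by ring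
    _ = 4 * M * 2 ^ b := by rw [Nat.div_mul_cancel hqM]

/-- **Average over the directions of the number of points on the line through a given point.** -/
theorem sum_Rc_le {t M x : ℕ} (hM : 2 ^ t ∣ M) (hx : x < 2 ^ t) (u : ℤ_[2])
    (hu : ¬ (2 : ℤ_[2]) ∣ u) :
    ∑ m ∈ range M, Rc t (u * th ^ m) x ≤ (4 * t + 1) * M := by
  set E : ℕ → ℕ → Prop := fun m y => (2 : ℤ_[2]) ^ t ∣ Dl (u * th ^ m) y - Dl (u * th ^ m) x
    with hE
  have h1 : ∑ m ∈ range M, Rc t (u * th ^ m) x =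
      ∑ y ∈ range (2 ^ t), ((range M).filter fun m => E m y).card := by
    have : ∀ m ∈ range M, Rc t (u * th ^ m) x = ∑ y ∈ range (2 ^ t), if E m y then 1 else 0 := by
      intro m _
      rw [← card_filter]
      rfl
    rw [sum_congr rfl this, sum_comm]
    refine sum_congr rfl fun y _ => ?_
    rw [← card_filter]
  have h2 : ∀ y ∈ range (2 ^ t), ((range M).filter fun m => E m y).card * 2 ^ t ≤
      (if y = x then M * 2 ^ t else 0) +
        4 * M * ∑ b ∈ range t, 2 ^ b * (if y % 2 ^ b = x % 2 ^ b then 1 else 0) := by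
    intro y hy
    rw [mem_range] at hy
    by_cases hyx : y = x
    · rw [if_pos hyx]
      refine le_trans (Nat.mul_le_mul_right _ ?_) (Nat.le_add_right _ _)
      exact le_trans (card_filter_le _ _) (by simp)
    · rw [if_neg hyx, zero_add]
      have hdv : ∀ b, (2 : ℤ_[2]) ^ b ∣ (y : ℤ_[2]) - x ↔ y % 2 ^ b = x % 2 ^ b := by
        intro b
        have h3 := two_pow_dvd_int b ((y : ℤ) - x)
        push_cast at h3
        rw [h3]
        have h4 : (2 : ℤ) ^ b ∣ (y : ℤ) - x ↔ x ≡ y [MOD 2 ^ b] := by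
          rw [Nat.modEq_iff_dvd]; push_cast; rfl
        rw [h4]
        exact ⟨fun h => h.symm, fun h => h.symm⟩
      have hnt : ¬ y % 2 ^ t = x % 2 ^ t := by
        rw [Nat.mod_eq_of_lt hy, Nat.mod_eq_of_lt hx]; exact hyx
      have ht : 0 < t := by
        rcases Nat.eq_zero_or_pos t with h | h
        · subst h; simp at hy hx; omega
        · exact h
      have hex : ∃ b, ¬ y % 2 ^ (b + 1) = x % 2 ^ (b + 1) := by
        refine ⟨t - 1, ?_⟩
        have : t - 1 + 1 = t := by omega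
        rw [this]; exact hnt
      have hb1 := Nat.find_spec hex
      have hb2 : Nat.find hex ≤ t - 1 := by
        apply Nat.find_min'
        have : t - 1 + 1 = t := by omega
        rw [this]; exact hnt
      set b := Nat.find hex with hbdef
      have hb3 : y % 2 ^ b = x % 2 ^ b := by
        rcases Nat.eq_zero_or_pos b with h0 | h0
        · rw [h0]; simp [Nat.mod_one]
        · have h5 := Nat.find_min hex (m := b - 1) (by omega)
          rw [not_not] at h5
          have : b - 1 + 1 = b := by omega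
          rwa [this] at h5
      have h6 := card_dir_le (x := x) (y := y) (b := b) hM u hu (by omega)
        (fun h => hb1 ((hdv _).1 h))
      refine le_trans h6 ?_
      rw [mul_assoc, mul_assoc]
      refine Nat.mul_le_mul_left _ (Nat.mul_le_mul_left _ ?_)
      calc 2 ^ b = 2 ^ b * (if y % 2 ^ b = x % 2 ^ b then 1 else 0) := by rw [if_pos hb3]; ring
        _ ≤ _ := single_le_sum (f := fun b => 2 ^ b * (if y % 2 ^ b = x % 2 ^ b then 1 else 0))
          (fun _ _ => Nat.zero_le _) (mem_range.2 (by omega))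
  have h3 : (∑ m ∈ range M, Rc t (u * th ^ m) x) * 2 ^ t ≤ (4 * t + 1) * M * 2 ^ t := by
    rw [h1, sum_mul]
    refine le_trans (sum_le_sum h2) ?_
    rw [sum_add_distrib, ← mul_sum, sum_comm]
    have h4 : ∑ y ∈ range (2 ^ t), (if y = x then M * 2 ^ t else 0) = M * 2 ^ t := by
      rw [sum_ite_eq' , if_pos (mem_range.2 hx)]
    have h5 : ∀ b ∈ range t, ∑ y ∈ range (2 ^ t), 2 ^ b * (if y % 2 ^ b = x % 2 ^ b then 1 else 0)
        ≤ 2 ^ t := by
      intro b hb
      rw [mem_range] at hb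
      rw [← mul_sum, ← card_filter]
      have h6 : ((range (2 ^ t)).filter fun y => y % 2 ^ b = x % 2 ^ b).card ≤ 2 ^ t / 2 ^ b := by
        refine card_le_of_congr (pow_dvd_pow 2 (by omega)) _ ?_ ?_
        · intro a ha
          rw [mem_filter, mem_range] at ha; exact ha.1
        · intro a ha a' ha'
          rw [mem_filter] at ha ha'
          rw [ha.2, ha'.2]
      calc 2 ^ b * _ ≤ 2 ^ b * (2 ^ t / 2 ^ b) := Nat.mul_le_mul_left _ h6
        _ = 2 ^ t := Nat.mul_div_cancel' (pow_dvd_pow 2 (by omega))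
    rw [h4]
    calc M * 2 ^ t + 4 * M * ∑ b ∈ range t, ∑ y ∈ range (2 ^ t),
          2 ^ b * (if y % 2 ^ b = x % 2 ^ b then 1 else 0)
        ≤ M * 2 ^ t + 4 * M * ∑ _b ∈ range t, 2 ^ t :=
          Nat.add_le_add_left (Nat.mul_le_mul_left _ (sum_le_sum h5)) _
      _ = (4 * t + 1) * M * 2 ^ t := by
          rw [sum_const, card_range, smul_eq_mul]; ring
  exact Nat.le_of_mul_le_mul_right h3 (Nat.pow_pos (by norm_num))

end

end Pool.Agent.Lib.MP_f64c7e_nt
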